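import Mathlib
import Pool.Agent.H617.WN.S

set_option autoImplicit false

/-! The shifts of a progression in a window: the variance and the second moment at a point. -/

namespace Pool.Agent.H617.WQ
open Finset Filter Topology
open Pool.Agent.H373R2.T7 (Vz Vz_pos pz mem_pz)
open Pool.Agent.E8helper16.SL
open Pool.Agent.H617.WH
open Pool.Agent.H617.WK
open Pool.Agent.H617.WN

/-- the shifts `h ≤ H` with `q ∣ h + r` -/
def St (q r H : ℕ) : Finset ℕ := (Icc 1 H).filter (fun h => q ∣ h + r)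

lemma st_sub (q r H : ℕ) : St q r H ⊆ Icc 1 H := filter_subset _ _

lemma st_card_le (q r H : ℕ) (hq : 1 ≤ q) : ((St q r H).card : ℝ) ≤ H / q + 1 := by
  have h1 := (abs_le.1 (cnt_dvd q r H hq)).2
  have e : St q r H = (Icc 1 H).filter (fun h => q ∣ r + h) := by
    unfold St
    apply filter_congr
    intro h _
    rw [add_comm]
  rw [e]
  linarith

lemma st_card_ge (q r H : ℕ) (hq : 1 ≤ q) : (H : ℝ) / q - 1 ≤ ((St q r H).card : ℝ) := by
  have h1 := (abs_le.1 (cnt_dvd q r H hq)).1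
  have e : St q r H = (Icc 1 H).filter (fun h => q ∣ r + h) := by
    unfold St
    apply filter_congr
    intro h _
    rw [add_comm]
  rw [e]
  linarith

lemma st_low (q r H x : ℕ) (hq : 1 ≤ q) {p : ℕ} (hp : 1 ≤ p) (hpq : Nat.Coprime p q) :
    ((St q r H).card : ℝ) * (1 / (p : ℝ)) - 2 ≤ ∑ h ∈ St q r H, (if p ∣ x + h then (1 : ℝ) else 0) := by
  obtain ⟨a, ha1, ha2⟩ := Nat.chineseRemainder hpq x r
  have e1 : ∑ h ∈ St q r H, (if p ∣ x + h then (1 : ℝ) else 0) = ∑ h ∈ Icc 1 H, (if p * q ∣ a + h then (1 : ℝ) else 0) := by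
    unfold St
    rw [sum_filter]
    apply sum_congr rfl
    intro h _
    have b1 : p ∣ x + h ↔ p ∣ a + h := by
      rw [add_comm x h, add_comm a h]
      exact (modEq_dvd ha1).symm
    have b2 : q ∣ h + r ↔ q ∣ a + h := by
      rw [add_comm a h]
      exact (modEq_dvd ha2).symm
    have b3 : p * q ∣ a + h ↔ p ∣ a + h ∧ q ∣ a + h :=
      ⟨fun q' => ⟨(dvd_mul_right _ _).trans q', (dvd_mul_left _ _).trans q'⟩, fun q' => hpq.mul_dvd_of_dvd_of_dvd q'.1 q'.2⟩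
    by_cases c1 : p ∣ a + h
    · by_cases c2 : q ∣ a + h
      · rw [if_pos (b2.2 c2), if_pos (b1.2 c1), if_pos (b3.2 ⟨c1, c2⟩)]
      · rw [if_neg (fun q' => c2 (b2.1 q')), if_neg (fun q' => c2 (b3.1 q').2)]
    · by_cases c2 : q ∣ a + h
      · rw [if_pos (b2.2 c2), if_neg (fun q' => c1 (b1.1 q')), if_neg (fun q' => c1 (b3.1 q').1)]
      · rw [if_neg (fun q' => c2 (b2.1 q')), if_neg (fun q' => c2 (b3.1 q').2)]
  rw [e1, sum_ind]
  have h1 := (abs_le.1 (cnt_dvd (p * q) a H (Nat.mul_pos hp hq))).1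
  have h2 := st_card_le q r H hq
  have hp0 : (0 : ℝ) < p := by exact_mod_cast hp
  have hp1 : (1 : ℝ) ≤ p := by exact_mod_cast hp
  have hq0 : (0 : ℝ) < q := by exact_mod_cast hq
  have h3 : ((St q r H).card : ℝ) * (1 / (p : ℝ)) ≤ (H / q + 1) * (1 / (p : ℝ)) := mul_le_mul_of_nonneg_right h2 (by positivity)
  have h4 : ((H : ℝ) / q + 1) * (1 / (p : ℝ)) = H / ((p * q : ℕ) : ℝ) + 1 / p := by
    push_cast
    field_simp
  have h5 : 1 / (p : ℝ) ≤ 1 := by rw [div_le_one hp0]; exact hp1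
  linarith

/-- the variance sum over the shifts of `S` -/
noncomputable def YS (P : Finset ℕ) (p t : ℕ) (S : Finset ℕ) (n : ℕ) : ℝ :=
  ∑ h ∈ S, ∑ q ∈ P.erase p, yq p q (n + t + h)

section var
variable {K : ℕ → ℝ} {P : Finset ℕ} {N : ℕ} {M δ E : ℝ}

theorem varS (hP : ∀ p ∈ P, p.Prime) (hK : ∀ n, 0 ≤ K n) (hM : 0 ≤ M) (hE : 0 ≤ E) (hδ0 : 0 ≤ δ) (hδ : δ ≤ 1)
    (hAF : AF K P N M δ E) {p H : ℕ} (hp : p ∈ P) (hpH : p ≤ H) (t : ℕ) {S : Finset ℕ} (hS : S ⊆ Icc 1 H) :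
    ∑ n ∈ Icc 1 N, K n * YS P p t S n ^ 2 ≤
      ((H : ℝ) / p) ^ 2 * M * (8 * δ * RP P ^ 2 + 6 * ∑ q ∈ P, 1 / (q : ℝ) ^ 2) + 2 * (M / p) * (H * RP P) +
        8 * (H : ℝ) ^ 2 * (E * (P.card : ℝ) ^ 2) := by
  classical
  have hp0 : (0 : ℝ) < p := by exact_mod_cast (hP p hp).pos
  have hp1 : (1 : ℝ) ≤ p := by exact_mod_cast (hP p hp).one_le
  have hHp : (1 : ℝ) ≤ (H : ℝ) / p := by
    rw [one_le_div hp0]
    exact_mod_cast hpH
  have hH0 : (0 : ℝ) ≤ H := Nat.cast_nonneg _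
  obtain ⟨Q, hQ⟩ : ∃ Q, Q = P.erase p := ⟨_, rfl⟩
  have hQP : ∀ q ∈ Q, q ∈ P ∧ p ≠ q := by
    intro q hq
    rw [hQ, mem_erase] at hq
    exact ⟨hq.2, hq.1.symm⟩
  have hQsub : Q ⊆ P := fun q hq => (hQP q hq).1
  -- expand
  have h1 : ∑ n ∈ Icc 1 N, K n * YS P p t S n ^ 2 =
      ∑ h ∈ S, ∑ h' ∈ S, ∑ q ∈ Q, ∑ r ∈ Q, Cc K N p q r t h h' := by
    have e1 : ∀ n ∈ Icc 1 N, K n * YS P p t S n ^ 2 =
        ∑ h ∈ S, ∑ h' ∈ S, ∑ q ∈ Q, ∑ r ∈ Q, K n * (yq p q (n + t + h) * yq p r (n + t + h')) := by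
      intro n _
      unfold YS
      rw [← hQ, pow_two, sum_mul_sum, mul_sum]
      apply sum_congr rfl
      intro h _
      rw [mul_sum]
      apply sum_congr rfl
      intro h' _
      rw [sum_mul_sum, mul_sum]
      apply sum_congr rfl
      intro q _
      rw [mul_sum]
    rw [sum_congr rfl e1, sum_comm]
    apply sum_congr rfl
    intro h _
    rw [sum_comm]
    apply sum_congr rfl
    intro h' _
    rw [sum_comm]
    apply sum_congr rfl
    intro q _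
    rw [sum_comm]
    rfl
  rw [h1]
  -- the bound for a pair of shifts
  obtain ⟨S2, hS2⟩ : ∃ S2, S2 = ∑ q ∈ P, 1 / (q : ℝ) ^ 2 := ⟨_, rfl⟩
  rw [← hS2]
  have hS20 : 0 ≤ S2 := by rw [hS2]; positivity
  obtain ⟨R, hR⟩ : ∃ R, R = RP P := ⟨_, rfl⟩
  rw [← hR]
  have hR0 : 0 ≤ R := by rw [hR]; exact RP_nonneg P
  have hMp : 0 ≤ M / p := by positivity
  have hc0 : (0 : ℝ) ≤ P.card := Nat.cast_nonneg _
  have hQR : ∑ q ∈ Q, 1 / (q : ℝ) ≤ R := by
    rw [hR]
    unfold RP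
    exact sum_le_sum_of_subset_of_nonneg hQsub (fun _ _ _ => by positivity)
  have hQR0 : 0 ≤ ∑ q ∈ Q, 1 / (q : ℝ) := sum_nonneg fun _ _ => by positivity
  have hQS : ∑ q ∈ Q, 1 / (q : ℝ) ^ 2 ≤ S2 := by
    rw [hS2]
    exact sum_le_sum_of_subset_of_nonneg hQsub (fun _ _ _ => by positivity)
  have hQc : (Q.card : ℝ) ≤ P.card := by exact_mod_cast card_le_card hQsub
  have hQc0 : (0 : ℝ) ≤ Q.card := Nat.cast_nonneg _
  obtain ⟨A, hA⟩ : ∃ A, A = 4 * δ * (M / p * R ^ 2) + 4 * (E * (P.card : ℝ) ^ 2) + 2 * (M / p * S2) := ⟨_, rfl⟩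
  have hA0 : 0 ≤ A := by rw [hA]; positivity
  have h2 : ∀ h ∈ Icc 1 H, ∀ h' ∈ Icc 1 H, ∑ q ∈ Q, ∑ r ∈ Q, Cc K N p q r t h h' ≤
      (if h ≡ h' [MOD p] then (1 : ℝ) else 0) * A + ∑ q ∈ Q, 2 * (M / p * (1 / q)) * (if h ≡ h' [MOD p * q] then 1 else 0) := by
    intro h _ h' _
    by_cases hh : h ≡ h' [MOD p]
    · rw [if_pos hh, one_mul]
      have g1 : ∀ q ∈ Q, ∀ r ∈ Q, Cc K N p q r t h h' ≤ 4 * δ * (M / p * (1 / q) * (1 / r)) + 4 * E +
          (if q = r then 2 * (M / p * (1 / (q : ℝ) ^ 2)) + 2 * (M / p * (1 / q)) * (if h ≡ h' [MOD p * q] then 1 else 0) else 0) := by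
        intro q hq r hr
        by_cases hqr : q = r
        · subst hqr
          rw [if_pos rfl]
          have cpq : Nat.Coprime p q := (Nat.coprime_primes (hP p hp) (hP q (hQP q hq).1)).2 (hQP q hq).2
          refine (c2 hP hK hM hE hδ hAF hp (hQP q hq).1 (hQP q hq).2 (t := t) (h := h) (h' := h')).trans ?_
          have e2 : (if h ≡ h' [MOD q] then 2 * (M / p * (1 / q)) else 0) = 2 * (M / p * (1 / q)) * (if h ≡ h' [MOD p * q] then 1 else 0) := by
            by_cases h3 : h ≡ h' [MOD q]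
            · rw [if_pos h3, if_pos ((Nat.modEq_and_modEq_iff_modEq_mul cpq).1 ⟨hh, h3⟩), mul_one]
            · rw [if_neg h3, if_neg (fun q' => h3 ((Nat.modEq_and_modEq_iff_modEq_mul cpq).2 q').2), mul_zero]
          rw [e2]
          have : 0 ≤ 4 * δ * (M / p * (1 / q) * (1 / (q : ℝ))) := by positivity
          linarith
        · rw [if_neg hqr, add_zero]
          exact c1 hP hE hAF hp (hQP q hq).1 (hQP r hr).1 (hQP q hq).2 (hQP r hr).2 hqr hh
      refine (sum_le_sum fun q hq => sum_le_sum fun r hr => g1 q hq r hr).trans ?_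
      have g2 : ∀ q ∈ Q, ∑ r ∈ Q, (4 * δ * (M / p * (1 / q) * (1 / (r : ℝ))) + 4 * E +
          (if q = r then 2 * (M / p * (1 / (q : ℝ) ^ 2)) + 2 * (M / p * (1 / q)) * (if h ≡ h' [MOD p * q] then 1 else 0) else 0)) =
          4 * δ * (M / p) * (∑ r ∈ Q, 1 / (r : ℝ)) * (1 / q) + Q.card * (4 * E) +
            (2 * (M / p) * (1 / (q : ℝ) ^ 2) + 2 * (M / p * (1 / q)) * (if h ≡ h' [MOD p * q] then 1 else 0)) := by
        intro q hq
        rw [sum_add_distrib, sum_add_distrib, sum_const, nsmul_eq_mul, sum_ite_eq, if_pos hq]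
        have : ∑ r ∈ Q, 4 * δ * (M / p * (1 / q) * (1 / (r : ℝ))) = 4 * δ * (M / p) * (∑ r ∈ Q, 1 / (r : ℝ)) * (1 / q) := by
          rw [mul_sum, sum_mul]
          apply sum_congr rfl
          intro r _
          ring
        rw [this]
        ring
      rw [sum_congr rfl g2, sum_add_distrib, sum_add_distrib, sum_add_distrib, ← mul_sum, ← mul_sum, sum_const, nsmul_eq_mul, hA]
      have g3 : 4 * δ * (M / p) * (∑ r ∈ Q, 1 / (r : ℝ)) * ∑ q ∈ Q, 1 / (q : ℝ) ≤ 4 * δ * (M / p * R ^ 2) := by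
        have : (∑ r ∈ Q, 1 / (r : ℝ)) * ∑ q ∈ Q, 1 / (q : ℝ) ≤ R * R := mul_le_mul hQR hQR hQR0 hR0
        calc _ = 4 * δ * (M / p) * ((∑ r ∈ Q, 1 / (r : ℝ)) * ∑ q ∈ Q, 1 / (q : ℝ)) := by ring
          _ ≤ 4 * δ * (M / p) * (R * R) := mul_le_mul_of_nonneg_left this (by positivity)
          _ = _ := by ring
      have g4 : (Q.card : ℝ) * (Q.card * (4 * E)) ≤ 4 * (E * (P.card : ℝ) ^ 2) := by
        have : (Q.card : ℝ) * Q.card ≤ P.card * P.card := mul_le_mul hQc hQc hQc0 hc0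
        calc _ = (4 * E) * ((Q.card : ℝ) * Q.card) := by ring
          _ ≤ (4 * E) * (P.card * P.card) := mul_le_mul_of_nonneg_left this (by positivity)
          _ = _ := by ring
      have g5 : 2 * (M / p) * ∑ q ∈ Q, 1 / (q : ℝ) ^ 2 ≤ 2 * (M / p * S2) := by
        have := mul_le_mul_of_nonneg_left hQS (show 0 ≤ 2 * (M / p) by positivity)
        linarith
      rw [mul_sum] at g5
      linarith
    · rw [if_neg hh, zero_mul, zero_add]
      have g1 : ∑ q ∈ Q, ∑ r ∈ Q, Cc K N p q r t h h' = 0 :=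
        sum_eq_zero fun q _ => sum_eq_zero fun r _ => c0 hh
      rw [g1]
      apply sum_nonneg
      intro q _
      split_ifs <;> positivity
  refine (sum_le_sum fun h hh => sum_le_sum fun h' hh' => h2 h (hS hh) h' (hS hh')).trans ?_
  have hnn : ∀ h h' : ℕ, 0 ≤ (if h ≡ h' [MOD p] then (1 : ℝ) else 0) * A + ∑ q ∈ Q, 2 * (M / p * (1 / q)) * (if h ≡ h' [MOD p * q] then 1 else 0) := by
    intro h h'
    apply add_nonneg
    · split_ifs
      · linarith
      · linarith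
    · apply sum_nonneg
      intro q _
      split_ifs <;> positivity
  refine (sum_le_sum fun h _ => sum_le_sum_of_subset_of_nonneg hS (fun h' _ _ => hnn h h')).trans ?_
  refine (sum_le_sum_of_subset_of_nonneg hS (fun h _ _ => sum_nonneg fun h' _ => hnn h h')).trans ?_
  have h3 : ∀ h ∈ Icc 1 H, ∑ h' ∈ Icc 1 H, ((if h ≡ h' [MOD p] then (1 : ℝ) else 0) * A +
      ∑ q ∈ Q, 2 * (M / p * (1 / q)) * (if h ≡ h' [MOD p * q] then 1 else 0)) ≤
      2 * (H / p) * A + (2 * (M / p) * (H / p * S2) + 2 * (M / p) * R) := by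
    intro h _
    rw [sum_add_distrib, ← sum_mul, sum_comm]
    have g1 := cm (hP p hp).one_le h H
    have g2 : (∑ h' ∈ Icc 1 H, (if h ≡ h' [MOD p] then (1 : ℝ) else 0)) * A ≤ 2 * (H / p) * A := by
      apply mul_le_mul_of_nonneg_right _ hA0
      linarith
    have g3 : ∀ q ∈ Q, ∑ h' ∈ Icc 1 H, 2 * (M / p * (1 / q)) * (if h ≡ h' [MOD p * q] then (1 : ℝ) else 0) ≤
        2 * (M / p) * (H / p * (1 / (q : ℝ) ^ 2)) + 2 * (M / p) * (1 / q) := by
      intro q hq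
      have hq0 : (0 : ℝ) < q := by exact_mod_cast (hP q (hQP q hq).1).pos
      rw [← mul_sum]
      have g4 := cm (Nat.mul_pos (hP p hp).pos (hP q (hQP q hq).1).pos) h H
      push_cast at g4
      calc _ ≤ 2 * (M / p * (1 / q)) * (H / (p * q) + 1) := mul_le_mul_of_nonneg_left g4 (by positivity)
        _ = _ := by field_simp
    have g5 := sum_le_sum g3
    rw [sum_add_distrib, ← mul_sum, ← mul_sum, ← mul_sum] at g5
    have g6 : 2 * (M / p) * (H / p * ∑ q ∈ Q, 1 / (q : ℝ) ^ 2) ≤ 2 * (M / p) * (H / p * S2) := by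
      apply mul_le_mul_of_nonneg_left _ (by positivity)
      exact mul_le_mul_of_nonneg_left hQS (by positivity)
    have g7 : 2 * (M / p) * ∑ q ∈ Q, 1 / (q : ℝ) ≤ 2 * (M / p) * R := mul_le_mul_of_nonneg_left hQR (by positivity)
    linarith
  refine (sum_le_sum h3).trans ?_
  rw [sum_const, Nat.card_Icc, Nat.add_sub_cancel, nsmul_eq_mul, hA]
  have e5 : (H : ℝ) * (2 * (H / p) * (4 * δ * (M / p * R ^ 2) + 4 * (E * (P.card : ℝ) ^ 2) + 2 * (M / p * S2)) + (2 * (M / p) * (H / p * S2) + 2 * (M / p) * R)) =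
      ((H : ℝ) / p) ^ 2 * M * (8 * δ * R ^ 2 + 6 * S2) + 2 * (M / p) * (H * R) + 8 * (H : ℝ) ^ 2 * (E * (P.card : ℝ) ^ 2) * (1 / p) := by
    field_simp
    ring
  rw [e5]
  have e6 : 8 * (H : ℝ) ^ 2 * (E * (P.card : ℝ) ^ 2) * (1 / p) ≤ 8 * (H : ℝ) ^ 2 * (E * (P.card : ℝ) ^ 2) * 1 := by
    apply mul_le_mul_of_nonneg_left _ (by positivity)
    rw [div_le_one hp0]
    exact hp1
  linarith

end var

/-- the second moment at a point -/
lemma pointS (P : Finset ℕ) (hP : ∀ p ∈ P, p.Prime) (q r : ℕ) (hq : 1 ≤ q) (hPq : ∀ p ∈ P, Nat.Coprime p q) (t H n : ℕ) :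
    ∑ h ∈ St q r H, (1 - (1 + RP P)⁻¹ * om P (n + t + h)) ^ 2 ≤
      (1 + RP P)⁻¹ * (St q r H).card + 2 * P.card + ∑ p ∈ P, |YS P p t (St q r H) n| := by
  classical
  obtain ⟨S, hS⟩ : ∃ S, S = St q r H := ⟨_, rfl⟩
  rw [← hS]
  have hR0 := RP_nonneg P
  obtain ⟨w, hw⟩ : ∃ w, w = (1 + RP P)⁻¹ := ⟨_, rfl⟩
  have hw0 : 0 < w := by rw [hw]; positivity
  have hw1 : w * (1 + RP P) = 1 := by rw [hw]; exact inv_mul_cancel₀ (by positivity)
  have hwle : w ≤ 1 := by nlinarith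
  rw [← hw]
  obtain ⟨S1, hS1⟩ : ∃ S1, S1 = ∑ h ∈ S, om P (n + t + h) := ⟨_, rfl⟩
  obtain ⟨S2, hS2⟩ : ∃ S2, S2 = ∑ h ∈ S, om P (n + t + h) ^ 2 := ⟨_, rfl⟩
  obtain ⟨Y, hY⟩ : ∃ Y, Y = ∑ p ∈ P, YS P p t S n := ⟨_, rfl⟩
  obtain ⟨Z, hZ⟩ : ∃ Z, Z = ∑ p ∈ P, |YS P p t S n| := ⟨_, rfl⟩
  rw [← hZ]
  have hYZ : Y ≤ Z := by rw [hY, hZ]; exact sum_le_sum fun p _ => le_abs_self _
  have hZ0 : 0 ≤ Z := by rw [hZ]; exact sum_nonneg fun _ _ => abs_nonneg _
  have h1 : ∑ h ∈ S, (1 - w * om P (n + t + h)) ^ 2 = S.card - 2 * w * S1 + w ^ 2 * S2 := by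
    have : ∀ h ∈ S, (1 - w * om P (n + t + h)) ^ 2 = 1 - 2 * w * om P (n + t + h) + w ^ 2 * om P (n + t + h) ^ 2 := by
      intro h _; ring
    rw [sum_congr rfl this, sum_add_distrib, sum_sub_distrib, ← mul_sum, ← mul_sum, sum_const, nsmul_eq_mul, mul_one, hS1, hS2]
  rw [h1]
  -- the first moment
  have m1 : S.card * RP P - 2 * P.card ≤ S1 := by
    rw [hS1]
    unfold om
    rw [sum_comm]
    have g1 : ∀ p ∈ P, S.card * (1 / (p : ℝ)) - 2 ≤ ∑ h ∈ S, (if p ∣ n + t + h then (1 : ℝ) else 0) := by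
      intro p hp
      rw [hS]
      exact st_low q r H (n + t) hq (hP p hp).one_le (hPq p hp)
    refine le_trans (le_of_eq ?_) (sum_le_sum g1)
    rw [sum_sub_distrib, ← mul_sum, sum_const, nsmul_eq_mul, mul_comm (P.card : ℝ) 2]
    rfl
  -- the second moment
  have m2 : S2 ≤ (1 + RP P) * S1 + Y := by
    have g1 : ∀ k : ℕ, om P k ^ 2 ≤ (1 + RP P) * om P k + ∑ p ∈ P, ∑ q ∈ P.erase p, yq p q k := by
      intro k
      have e1 : om P k ^ 2 = ∑ p ∈ P, (if p ∣ k then (1 : ℝ) else 0) * om P k := by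
        rw [pow_two, ← sum_mul]
        rfl
      have e2 : (1 + RP P) * om P k = ∑ p ∈ P, (if p ∣ k then (1 : ℝ) else 0) * (1 + RP P) := by
        rw [← sum_mul, mul_comm]
        rfl
      rw [e1, e2, ← sum_add_distrib]
      apply sum_le_sum
      intro p hp
      by_cases hd : p ∣ k
      · rw [if_pos hd, one_mul, one_mul]
        have e3 : ∑ q ∈ P.erase p, yq p q k = ∑ q ∈ P.erase p, (if q ∣ k then (1 : ℝ) else 0) - ∑ q ∈ P.erase p, 1 / (q : ℝ) := by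
          rw [← sum_sub_distrib]
          apply sum_congr rfl
          intro q _
          unfold yq
          rw [if_pos hd]
        rw [e3]
        have e4 : om P k = (∑ q ∈ P.erase p, (if q ∣ k then (1 : ℝ) else 0)) + 1 := by
          unfold om
          rw [← sum_erase_add _ _ hp, if_pos hd]
        have e5 : ∑ q ∈ P.erase p, 1 / (q : ℝ) ≤ RP P := by
          unfold RP
          exact sum_le_sum_of_subset_of_nonneg (erase_subset _ _) (fun _ _ _ => by positivity)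
        linarith
      · rw [if_neg hd, zero_mul, zero_mul, zero_add]
        apply le_of_eq
        symm
        apply sum_eq_zero
        intro q _
        unfold yq
        rw [if_neg hd]
    have g2 := sum_le_sum (s := S) fun h _ => g1 (n + t + h)
    rw [sum_add_distrib, ← mul_sum, ← hS2, ← hS1] at g2
    refine g2.trans (le_of_eq ?_)
    congr 1
    rw [hY]
    unfold YS
    rw [sum_comm]
  have g3 : w ^ 2 * S2 ≤ w * S1 + Z := by
    calc w ^ 2 * S2 ≤ w ^ 2 * ((1 + RP P) * S1 + Y) := mul_le_mul_of_nonneg_left m2 (by positivity)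
      _ = w * (w * (1 + RP P)) * S1 + w ^ 2 * Y := by ring
      _ = w * S1 + w ^ 2 * Y := by rw [hw1, mul_one]
      _ ≤ w * S1 + w ^ 2 * Z := by
          have := mul_le_mul_of_nonneg_left hYZ (show 0 ≤ w ^ 2 by positivity)
          linarith
      _ ≤ w * S1 + 1 * Z := by
          have : w ^ 2 ≤ 1 := pow_le_one₀ hw0.le hwle
          have := mul_le_mul_of_nonneg_right this hZ0
          linarith
      _ = _ := by ring
  have g4 : w * (S.card * RP P - 2 * P.card) ≤ w * S1 := mul_le_mul_of_nonneg_left m1 hw0.le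
  have hc0 : (0 : ℝ) ≤ P.card := Nat.cast_nonneg _
  have g5 : w * P.card ≤ P.card := mul_le_of_le_one_left hc0 hwle
  have g6 : (S.card : ℝ) - w * (S.card * RP P) = w * S.card := by linear_combination (-(S.card : ℝ)) * hw1
  have g7 : w * (S.card * RP P - 2 * P.card) = w * (S.card * RP P) - 2 * (w * P.card) := by ring
  rw [g7] at g4
  linarith

end Pool.Agent.H617.WQ
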