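import Mathlib
import Pool.Agent.H617.WQ.A

set_option autoImplicit false

/-! The shifts of a progression in a window: the variance and the second moment along tuples of rough integers. -/

namespace Pool.Agent.H617.WQ
open Finset Filter Topology
open Pool.Agent.H373R2.T7 (Vz Vz_pos pz mem_pz)
open Pool.Agent.E8helper16.SL
open Pool.Agent.H617.WH
open Pool.Agent.H617.WK
open Pool.Agent.H617.WN

theorem varwS (f D : ℕ) (hf : 1 ≤ f) (φ α β : ℝ) (hα : 0 < α) (hαβ : α < β) (hβφ : β < φ) (hφ : φ ≤ f) (η : ℝ) (hη : 0 < η) :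
    ∃ N₀ : ℕ, ∀ N : ℕ, N₀ ≤ N → ∀ z₀ : ℕ, N₀ ≤ z₀ → z₀ ≤ N → ∀ H : ℕ, Real.log z₀ ^ φ ≤ H → (H : ℝ) ≤ Real.log z₀ ^ (f + 1) →
      ∀ s : Fin f → ℤ, Sep s D → ∀ W : ℕ → ℝ, Wt s z₀ W → ∀ t : ℕ, ∀ S : Finset ℕ, S ⊆ Icc 1 H → ∀ p ∈ WH.PP α β z₀,
      ∑ n ∈ Icc 1 N, W n * |YS (WH.PP α β z₀) p t S n| ≤ η * ((H : ℝ) / p) * N := by
  classical
  obtain ⟨C, hC1, hC⟩ := mert
  obtain ⟨C6, hC61, hLLs⟩ := wsum f hf D
  obtain ⟨N₁, hLLs⟩ := hLLs 1 one_pos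
  obtain ⟨Rm, hRm⟩ : ∃ Rm, Rm = C ^ 2 * (β / α) := ⟨_, rfl⟩
  have hβ : 0 < β := by linarith
  have hRm0 : 0 < Rm := by rw [hRm]; positivity
  obtain ⟨ξ, hξ⟩ : ∃ ξ, ξ = η ^ 2 / C6 := ⟨_, rfl⟩
  have hξ0 : 0 < ξ := by rw [hξ]; positivity
  obtain ⟨C8, hC80, δ, hδ0, hδ1, hC8b, N₄, hset⟩ := setup f D hf α β hα hαβ Rm (ξ / 5) (by positivity)
  obtain ⟨I, hI⟩ := exists_nat_ge (30 * C8 / ξ + 1)
  obtain ⟨N₂, hpar⟩ := eventually_atTop.1 (params3 φ 0 α β le_rfl hα hαβ hβφ 1 I (10 * C8 * Rm / ξ) 1 one_pos)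
  obtain ⟨N₃, hev⟩ := eventually_atTop.1 ((err4 f (ξ / 5) (by positivity)).and (eventually_ge_atTop 3))
  refine ⟨N₁ + N₂ + N₃ + N₄, fun N hN z₀ hz₀ hz₀N H hH1 hH2 s hs W hW t S hS p hp => ?_⟩
  obtain ⟨p1, p2, p3, p4, p5, p6, -, -⟩ := hpar z₀ (by omega)
  obtain ⟨h5a, hN3⟩ := hev N (by omega)
  obtain ⟨-, hz₀3⟩ := hev z₀ (by omega)
  obtain ⟨K, M, hK0, hM0, hAF, hΛM, hWK⟩ := hset N (by omega) z₀ (by omega) hz₀N s hs
  have hWK := hWK W hW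
  obtain ⟨L, hL⟩ : ∃ L, L = Real.log z₀ := ⟨_, rfl⟩
  obtain ⟨LN, hLN⟩ : ∃ LN, LN = Real.log N := ⟨_, rfl⟩
  rw [← hLN] at h5a
  rw [← hL] at hH1 hH2 p3 p4 p5 p6 hΛM hWK
  have hL0 : 0 < L := by linarith
  have hLLN' : L ≤ LN := by
    rw [hL, hLN]
    exact Real.log_le_log (by exact_mod_cast (by omega : 0 < z₀)) (by exact_mod_cast hz₀N)
  have hN3r : (3 : ℝ) ≤ N := by exact_mod_cast hN3
  have hN0 : (0 : ℝ) < N := by linarith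
  obtain ⟨j0, hj0⟩ : ∃ j0, j0 = i0 α z₀ := ⟨_, rfl⟩
  obtain ⟨j1, hj1⟩ : ∃ j1, j1 = i1 β z₀ := ⟨_, rfl⟩
  obtain ⟨P, hPd'⟩ : ∃ P, P = WH.PP α β z₀ := ⟨_, rfl⟩
  have hPd : P = mid (2 ^ j0) (2 ^ j1) := by rw [hPd', hj0, hj1]; rfl
  rw [← hPd'] at hp hAF ⊢
  have h30 : 30 * C8 / ξ + 1 ≤ j0 := by
    rw [hj0]
    exact hI.trans (by exact_mod_cast p1)
  have hjj : (1 : ℝ) ≤ j0 := by
    have : 0 < 30 * C8 / ξ := by positivity
    linarith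
  have hjj' : 1 ≤ j0 := by exact_mod_cast hjj
  have hP : ∀ q ∈ P, q.Prime := fun q hq => by
    rw [hPd, mem_mid] at hq
    exact hq.2.2
  have hPlow : ∀ q ∈ P, 2 ^ j0 < q := fun q hq => by
    rw [hPd, mem_mid] at hq
    exact hq.1
  have hPup : ∀ q ∈ P, (q : ℝ) ≤ L ^ β := fun q hq => by
    rw [hPd, mem_mid] at hq
    have : (q : ℝ) ≤ ((2 ^ j1 : ℕ) : ℝ) := by exact_mod_cast hq.2.1
    push_cast at this
    rw [hj1] at this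
    exact this.trans p5
  have hratio : Vz (2 ^ j0) / Vz (2 ^ j1) ≤ Rm := by
    rw [hj0, hj1, hRm]
    exact V_ratio hC1 hC hα hβ.le (by rw [← hL]; exact p3) (by rw [← hj0]; exact hjj') p2
  have hj01 : 2 ^ j0 ≤ 2 ^ j1 := Nat.pow_le_pow_right (by norm_num) (by rw [hj0, hj1]; exact p2)
  have hR : RP P ≤ Rm := by
    rw [hPd]
    exact (RP_le_V hj01).trans hratio
  have hR0 : 0 ≤ RP P := RP_nonneg P
  -- the size of `p`
  have hp0 : (0 : ℝ) < p := by exact_mod_cast (hP p hp).pos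
  have hLβ : L ^ β ≤ L ^ φ := Real.rpow_le_rpow_of_exponent_le p3 hβφ.le
  have hpH : (p : ℝ) ≤ H := (hPup p hp).trans (hLβ.trans hH1)
  have hpHn : p ≤ H := by exact_mod_cast hpH
  have hHp : (1 : ℝ) ≤ (H : ℝ) / p := by rw [one_le_div hp0]; exact hpH
  have hH0 : (0 : ℝ) ≤ H := Nat.cast_nonneg _
  have hcard : (P.card : ℝ) ≤ L ^ (f + 1) := by
    have g1 : P ⊆ Icc 1 ⌊L ^ β⌋₊ := by
      intro q hq
      rw [mem_Icc]
      exact ⟨(hP q hq).one_le, Nat.le_floor (hPup q hq)⟩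
    have g2 := card_le_card g1
    rw [Nat.card_Icc, Nat.add_sub_cancel] at g2
    have g3 : (P.card : ℝ) ≤ ⌊L ^ β⌋₊ := by exact_mod_cast g2
    refine (g3.trans (Nat.floor_le (by positivity))).trans ?_
    rw [← Real.rpow_natCast]
    apply Real.rpow_le_rpow_of_exponent_le p3
    push_cast
    linarith
  have hc0' : (0 : ℝ) ≤ P.card := Nat.cast_nonneg _
  obtain ⟨E, hE⟩ : ∃ E, E = 2 + √((Nat.sqrt N : ℕ) : ℝ) := ⟨_, rfl⟩
  rw [← hE] at hAF h5a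
  have hE0 : 0 ≤ E := by rw [hE]; positivity
  have hvar := varS hP hK0 hM0 hE0 hδ0 hδ1 hAF hp hpHn t hS
  -- the comparison
  obtain ⟨Λ, hΛ⟩ : ∃ Λ, Λ = L ^ f := ⟨_, rfl⟩
  have hΛ0 : 0 ≤ Λ := by rw [hΛ]; positivity
  have htr : ∑ n ∈ Icc 1 N, W n * YS P p t S n ^ 2 ≤ Λ * ∑ n ∈ Icc 1 N, K n * YS P p t S n ^ 2 := by
    rw [mul_sum]
    apply sum_le_sum
    intro n _
    rw [← mul_assoc, hΛ]
    exact mul_le_mul_of_nonneg_right (hWK n) (sq_nonneg _)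
  rw [← hΛ] at hΛM
  have hS2 : ∑ q ∈ P, 1 / (q : ℝ) ^ 2 ≤ 1 / ((2 ^ j0 : ℕ) : ℝ) := sum_inv_sq (Nat.one_le_two_pow) hPlow
  have hS20 : 0 ≤ ∑ q ∈ P, 1 / (q : ℝ) ^ 2 := sum_nonneg fun _ _ => by positivity
  have hX : ∑ n ∈ Icc 1 N, W n * YS P p t S n ^ 2 ≤ Λ * (((H : ℝ) / p) ^ 2 * M * (8 * δ * RP P ^ 2 + 6 * ∑ q ∈ P, 1 / (q : ℝ) ^ 2) + 2 * (M / p) * (H * RP P) +
        8 * (H : ℝ) ^ 2 * (E * (P.card : ℝ) ^ 2)) + 0 := by
    rw [add_zero]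
    exact htr.trans (mul_le_mul_of_nonneg_left hvar hΛ0)
  have hmain : ∑ n ∈ Icc 1 N, W n * YS P p t S n ^ 2 ≤ ((H : ℝ) / p) ^ 2 * N * ξ := by
    refine comb1 (C8 := C8) hp0 hHp hN0.le hξ0.le hR0 hS20 hδ0 hΛM hX ?_ ?_ ?_ ?_ ?_
    · refine le_trans ?_ hC8b
      apply mul_le_mul_of_nonneg_left _ hC80.le
      apply mul_le_mul_of_nonneg_left _ (by positivity)
      exact pow_le_pow_left₀ hR0 hR 2
    · have g1 : (j0 : ℝ) ≤ ((2 ^ j0 : ℕ) : ℝ) := by exact_mod_cast (Nat.lt_two_pow_self).le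
      have g2 : 30 * C8 / ξ ≤ ((2 ^ j0 : ℕ) : ℝ) := by linarith
      have g3 : 1 / ((2 ^ j0 : ℕ) : ℝ) ≤ ξ / (30 * C8) := by
        rw [div_le_div_iff₀ (by positivity) (by positivity)]
        rw [div_le_iff₀ hξ0] at g2
        linarith
      calc C8 * (6 * ∑ q ∈ P, 1 / (q : ℝ) ^ 2) ≤ C8 * (6 * (ξ / (30 * C8))) := by
            apply mul_le_mul_of_nonneg_left _ hC80.le
            linarith [hS2.trans g3]
        _ = ξ / 5 := by field_simp; norm_num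
    · have g1 : 10 * C8 * Rm / ξ * L ^ β ≤ H := p6.trans hH1
      have g2 : 10 * C8 * Rm * L ^ β ≤ ξ * H := by
        rw [div_mul_eq_mul_div, div_le_iff₀ hξ0] at g1
        linarith
      calc C8 * (2 * RP P) * p ≤ C8 * (2 * Rm) * L ^ β := by
            apply mul_le_mul _ (hPup p hp) hp0.le (by positivity)
            apply mul_le_mul_of_nonneg_left _ hC80.le
            linarith
        _ ≤ ξ / 5 * H := by linarith
    · refine le_trans ?_ h5a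
      have k1 : L ^ (f + 1) ≤ LN ^ (f + 1) := pow_le_pow_left₀ hL0.le hLLN' _
      have g1 : (H : ℝ) ^ 2 ≤ (LN ^ (f + 1)) ^ 2 := pow_le_pow_left₀ hH0 (hH2.trans k1) 2
      have g2 : (P.card : ℝ) ^ 2 ≤ (LN ^ (f + 1)) ^ 2 := pow_le_pow_left₀ hc0' (hcard.trans k1) 2
      have g3 : Λ ≤ LN ^ f := by rw [hΛ]; exact pow_le_pow_left₀ hL0.le hLLN' _
      have hLN0 : 0 ≤ LN := by linarith
      apply mul_le_mul g3 _ (by positivity) (by positivity)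
      apply mul_le_mul
      · exact mul_le_mul_of_nonneg_left g1 (by norm_num)
      · exact mul_le_mul_of_nonneg_left g2 hE0
      · positivity
      · positivity
    · positivity
  -- Cauchy-Schwarz
  have hLLN : ∑ n ∈ Icc 1 N, W n ≤ C6 * N := hLLs N (by omega) z₀ (by omega) hz₀N N (by rw [one_mul]) le_rfl s hs W hW
  have hq := sum_mul_sq_le_sq_mul_sq (Icc 1 N) (fun n : ℕ => √(W n)) (fun n : ℕ => √(W n) * |YS P p t S n|)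
  have q1 : ∀ n : ℕ, √(W n) * (√(W n) * |YS P p t S n|) = W n * |YS P p t S n| := by
    intro n
    rw [← mul_assoc, Real.mul_self_sqrt (hW.nn n)]
  have q2 : ∀ n : ℕ, √(W n) ^ 2 = W n := fun n => Real.sq_sqrt (hW.nn n)
  simp only [q1, mul_pow, q2, sq_abs] at hq
  have hT0 : 0 ≤ ∑ n ∈ Icc 1 N, W n * |YS P p t S n| := sum_nonneg fun n _ => mul_nonneg (hW.nn n) (abs_nonneg _)
  have hfin : (∑ n ∈ Icc 1 N, W n * |YS P p t S n|) ^ 2 ≤ (η * ((H : ℝ) / p) * N) ^ 2 := by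
    refine hq.trans ?_
    calc (∑ n ∈ Icc 1 N, W n) * ∑ n ∈ Icc 1 N, W n * YS P p t S n ^ 2 ≤ (C6 * N) * (((H : ℝ) / p) ^ 2 * N * ξ) := by
          apply mul_le_mul hLLN hmain _ (by positivity)
          exact sum_nonneg fun n _ => mul_nonneg (hW.nn n) (sq_nonneg _)
      _ = _ := by rw [hξ]; field_simp
  exact (pow_le_pow_iff_left₀ hT0 (by positivity) (by norm_num)).1 hfin

/-- the second moment -/
theorem momwS (f D q : ℕ) (hq : 1 ≤ q) (hf : 1 ≤ f) (φ α β : ℝ) (hα : 0 < α) (hαβ : α < β) (hβφ : β < φ) (hφ : φ ≤ f) (η : ℝ) (hη : 0 < η) :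
    ∃ N₀ : ℕ, ∀ N : ℕ, N₀ ≤ N → ∀ z₀ : ℕ, N₀ ≤ z₀ → z₀ ≤ N → ∀ H : ℕ, Real.log z₀ ^ φ ≤ H → (H : ℝ) ≤ Real.log z₀ ^ (f + 1) →
      ∀ s : Fin f → ℤ, Sep s D → ∀ W : ℕ → ℝ, Wt s z₀ W → ∀ t M r : ℕ, M ≤ N →
      ∑ n ∈ Icc 1 M, W n * ∑ h ∈ St q r H, (1 - (1 + RP (WH.PP α β z₀))⁻¹ * om (WH.PP α β z₀) (n + t + h)) ^ 2 ≤
        (1 + RP (WH.PP α β z₀))⁻¹ * ((St q r H).card * ∑ n ∈ Icc 1 M, W n) + η * (H * N) := by
  classical
  obtain ⟨C6, hC61, hLLs⟩ := wsum f hf D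
  obtain ⟨N₁, hLLs⟩ := hLLs 1 one_pos
  obtain ⟨Rm, hRm0, N₂, hRm⟩ := RP_bdd α β hα hαβ
  obtain ⟨N₃, hV⟩ := varwS f D hf φ α β hα hαβ hβφ hφ (η / (2 * Rm)) (by positivity)
  obtain ⟨N₄, hpar⟩ := eventually_atTop.1 (params3 φ 0 α β le_rfl hα hαβ hβφ 1 (q + 1) (4 * C6 / η) 1 one_pos)
  refine ⟨N₁ + N₂ + N₃ + N₄ + 1, fun N hN z₀ hz₀ hz₀N H hH1 hH2 s hs W hW t M r hMN => ?_⟩
  obtain ⟨p1, p2, p3, p4, p5, p6, -, -⟩ := hpar z₀ (by omega)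
  have hV := hV N (by omega) z₀ (by omega) hz₀N H hH1 hH2 s hs W hW t (St q r H) (st_sub q r H)
  have hRm := hRm z₀ (by omega)
  obtain ⟨P, hPd⟩ : ∃ P, P = WH.PP α β z₀ := ⟨_, rfl⟩
  rw [← hPd] at hV hRm ⊢
  obtain ⟨L, hL⟩ : ∃ L, L = Real.log z₀ := ⟨_, rfl⟩
  rw [← hL] at hH1 hH2 p3 p4 p5 p6
  have hN0 : (0 : ℝ) < N := by exact_mod_cast (by omega : 0 < N)
  have hP : ∀ q ∈ P, q.Prime := fun q hq => by
    rw [hPd] at hq
    unfold Pool.Agent.H617.WH.PP at hq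
    rw [mem_mid] at hq
    exact hq.2.2
  have hPup : ∀ q ∈ P, (q : ℝ) ≤ L ^ β := fun q hq => by
    rw [hPd] at hq
    unfold Pool.Agent.H617.WH.PP at hq
    rw [mem_mid] at hq
    have : (q : ℝ) ≤ ((2 ^ i1 β z₀ : ℕ) : ℝ) := by exact_mod_cast hq.2.1
    push_cast at this
    exact this.trans p5
  have hL0 : 0 < L := by linarith
  have hcard : (P.card : ℝ) ≤ L ^ β := by
    have g1 : P ⊆ Icc 1 ⌊L ^ β⌋₊ := by
      intro q hq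
      rw [mem_Icc]
      exact ⟨(hP q hq).one_le, Nat.le_floor (hPup q hq)⟩
    have g2 := card_le_card g1
    rw [Nat.card_Icc, Nat.add_sub_cancel] at g2
    have g3 : (P.card : ℝ) ≤ ⌊L ^ β⌋₊ := by exact_mod_cast g2
    exact g3.trans (Nat.floor_le (by positivity))
  have hLLN : ∑ n ∈ Icc 1 N, W n ≤ C6 * N := hLLs N (by omega) z₀ (by omega) hz₀N N (by rw [one_mul]) le_rfl s hs W hW
  have hsub : Icc 1 M ⊆ Icc 1 N := Icc_subset_Icc_right hMN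
  have hLLM : ∑ n ∈ Icc 1 M, W n ≤ C6 * N :=
    (sum_le_sum_of_subset_of_nonneg hsub (fun n _ _ => hW.nn n)).trans hLLN
  have hPq : ∀ p ∈ P, Nat.Coprime p q := by
    intro p hp
    have g1 : 2 ^ i0 α z₀ < p := by
      rw [hPd] at hp
      unfold Pool.Agent.H617.WH.PP at hp
      rw [mem_mid] at hp
      exact hp.1
    have g2 : i0 α z₀ < 2 ^ i0 α z₀ := Nat.lt_two_pow_self
    rw [(hP p hp).coprime_iff_not_dvd]
    intro hd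
    have := Nat.le_of_dvd (by omega) hd
    omega
  obtain ⟨S, hS⟩ : ∃ S, S = St q r H := ⟨_, rfl⟩
  have hpt := fun n => pointS P hP q r hq hPq t H n
  rw [← hS] at hV hpt ⊢
  have h1 : ∀ n ∈ Icc 1 M, W n * ∑ h ∈ S, (1 - (1 + RP P)⁻¹ * om P (n + t + h)) ^ 2 ≤
      ((1 + RP P)⁻¹ * S.card) * W n + 2 * P.card * W n + ∑ p ∈ P, W n * |YS P p t S n| := by
    intro n _
    have g1 := mul_le_mul_of_nonneg_left (hpt n) (hW.nn n)
    refine g1.trans (le_of_eq ?_)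
    rw [← mul_sum]
    ring
  refine (sum_le_sum h1).trans ?_
  rw [sum_add_distrib, sum_add_distrib, ← mul_sum, ← mul_sum, sum_comm]
  have h2 : ∑ p ∈ P, ∑ n ∈ Icc 1 M, W n * |YS P p t S n| ≤ η / 2 * (H * N) := by
    have g1 : ∀ p ∈ P, ∑ n ∈ Icc 1 M, W n * |YS P p t S n| ≤ (η / (2 * Rm) * (H * N)) * (1 / (p : ℝ)) := by
      intro p hp
      refine (sum_le_sum_of_subset_of_nonneg hsub (fun n _ _ => mul_nonneg (hW.nn n) (abs_nonneg _))).trans ?_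
      refine (hV p hp).trans (le_of_eq ?_)
      ring
    refine (sum_le_sum g1).trans ?_
    rw [← mul_sum]
    have e1 : ∑ p ∈ P, 1 / (p : ℝ) = RP P := rfl
    rw [e1]
    calc (η / (2 * Rm) * (H * N)) * RP P ≤ (η / (2 * Rm) * (H * N)) * Rm := mul_le_mul_of_nonneg_left hRm (by positivity)
      _ = _ := by field_simp
  have h3 : 2 * (P.card : ℝ) * ∑ n ∈ Icc 1 M, W n ≤ η / 2 * (H * N) := by
    have g1 : 4 * C6 / η * (P.card : ℝ) ≤ H := by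
      calc 4 * C6 / η * (P.card : ℝ) ≤ 4 * C6 / η * L ^ β := mul_le_mul_of_nonneg_left hcard (by positivity)
        _ ≤ L ^ φ := p6
        _ ≤ H := hH1
    have g2 : 4 * C6 * (P.card : ℝ) ≤ η * H := by
      rw [div_mul_eq_mul_div, div_le_iff₀ hη] at g1
      linarith
    calc 2 * (P.card : ℝ) * ∑ n ∈ Icc 1 M, W n ≤ 2 * P.card * (C6 * N) := mul_le_mul_of_nonneg_left hLLM (by positivity)
      _ = (4 * C6 * P.card) * (N / 2) := by ring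
      _ ≤ (η * H) * (N / 2) := mul_le_mul_of_nonneg_right g2 (by positivity)
      _ = _ := by ring
  have e3 : (1 + RP P)⁻¹ * (S.card : ℝ) * ∑ n ∈ Icc 1 M, W n = (1 + RP P)⁻¹ * (S.card * ∑ n ∈ Icc 1 M, W n) := by ring
  rw [e3]
  linarith

end Pool.Agent.H617.WQ
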