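import Mathlib
import Pool.Agent.H617.WQ.B

set_option autoImplicit false

/-! The shifts of a progression in a window: the decomposition and the short windows. -/

namespace Pool.Agent.H617.WQ
open Finset Filter Topology
open Pool.Agent.H373R2.T7 (Vz Vz_pos pz mem_pz)
open Pool.Agent.E8helper16.SL
open Pool.Agent.H617.WH
open Pool.Agent.H617.WK
open Pool.Agent.H617.WN

/-- the mean square of the function over the shifts of `S` -/
noncomputable def Qs (gg : ℤ → ℂ) (W : ℕ → ℝ) (N B : ℕ) (S : Finset ℕ) : ℝ :=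
  ∑ h ∈ S, ∑ n ∈ Ioc 0 N, W n * ‖gg ((n + (B + h) : ℕ) : ℤ)‖ ^ 2

lemma Qs_nonneg (gg : ℤ → ℂ) {W : ℕ → ℝ} (hW : ∀ n, 0 ≤ W n) (N B : ℕ) (S : Finset ℕ) : 0 ≤ Qs gg W N B S :=
  sum_nonneg fun _ _ => sum_nonneg fun _ _ => mul_nonneg (hW _) (by positivity)

lemma Qs_le {gg : ℤ → ℂ} (hgg : ∀ m, ‖gg m‖ ≤ 1) {W : ℕ → ℝ} (hW : ∀ n, 0 ≤ W n) (N B : ℕ) (S : Finset ℕ) :
    Qs gg W N B S ≤ S.card * Tw W N := by
  unfold Qs Tw
  have h1 : ∀ h ∈ S, ∑ n ∈ Ioc 0 N, W n * ‖gg ((n + (B + h) : ℕ) : ℤ)‖ ^ 2 ≤ ∑ n ∈ Ioc 0 N, W n := by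
    intro h _
    apply sum_le_sum
    intro n _
    apply mul_le_of_le_one_right (hW n)
    exact pow_le_one₀ (norm_nonneg _) (hgg _)
  refine (sum_le_sum h1).trans ?_
  rw [sum_const, nsmul_eq_mul]

lemma w0wS {gg : ℤ → ℂ} (S : Finset ℕ) (P : Finset ℕ) (hP : ∀ p ∈ P, p.Prime) (w : ℝ) (hw : 0 ≤ w) (N Y m : ℕ) (hY : 1 ≤ Y) (hNY : N ≤ Y * m)
    (x : ℕ → ℕ) (hx : ∀ h, Y * x h ≤ N) (cp : ℕ → ℂ) (hmc : Mc P (4 * N) cp gg) (W : ℕ → ℝ) (hW0 : ∀ n, 0 ≤ W n)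
    (B H : ℕ) (hS : S ⊆ Icc 1 H) (hB : B ≤ 2 * N) (hH : H ≤ N) (b : ℕ → ℂ) (hb : ∀ n, ‖b n‖ ≤ 1) :
    ∃ cj : ℕ → ℕ → ℂ, (∀ j h, ‖cj j h‖ ≤ 1) ∧ ∑ h ∈ S, ‖Sw gg W b (Y * x h) (B + h)‖ ≤
      ∑ h ∈ S, ∑ n ∈ Ioc 0 N, W n * (|1 - w * om P (n + (B + h))| * ‖gg ((n + (B + h) : ℕ) : ℤ)‖) +
      w * ∑ j ∈ range m, ∑ p ∈ P, ∑ n ∈ Icc 1 (3 * N), sh W B n * ‖Gzg gg (cj j) H p n‖ := by
  classical
  obtain ⟨c0, hc01, hc02⟩ := duality S (fun h => Sw gg W b (Y * x h) (B + h))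
  obtain ⟨c, hcd⟩ : ∃ c : ℕ → ℂ, c = fun h => if h ∈ S then c0 h else 0 := ⟨_, rfl⟩
  have hcS : ∀ h, h ∉ S → c h = 0 := by
    intro h hh
    rw [hcd]
    simp only
    rw [if_neg hh]
  have hc1 : ∀ h, ‖c h‖ ≤ 1 := by
    intro h
    rw [hcd]
    simp only
    split_ifs
    · exact hc01 h
    · simp
  refine ⟨fun j h => if j < x h then c h else 0, fun j h => ?_, ?_⟩
  · simp only
    split_ifs
    · exact hc1 h
    · simp
  -- the sum as a double sum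
  obtain ⟨d, hd⟩ : ∃ d : ℕ → ℕ → ℂ, d = fun h n => if n ≤ Y * x h then c h * b n else 0 := ⟨_, rfl⟩
  have hdn : ∀ h n, ‖d h n‖ ≤ 1 := by
    intro h n
    rw [hd]
    simp only
    split_ifs
    · rw [norm_mul]
      exact mul_le_one₀ (hc1 h) (norm_nonneg _) (hb n)
    · simp
  have hdS : ∀ h n, h ∉ S → d h n = 0 := by
    intro h n hh
    rw [hd]
    simp only
    rw [hcS h hh, zero_mul, ite_self]
  have h1 : ((∑ h ∈ S, ‖Sw gg W b (Y * x h) (B + h)‖ : ℝ) : ℂ) =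
      ∑ h ∈ Icc 1 H, ∑ n ∈ Ioc 0 N, d h n * (W n : ℂ) * gg ((n + (B + h) : ℕ) : ℤ) := by
    rw [Complex.ofReal_sum, ← sum_congr rfl hc02]
    have e0 : ∑ h ∈ S, c0 h * Sw gg W b (Y * x h) (B + h) = ∑ h ∈ Icc 1 H, c h * Sw gg W b (Y * x h) (B + h) := by
      rw [← sum_subset hS (fun h _ hh => by rw [hcS h hh, zero_mul])]
      apply sum_congr rfl
      intro h hh
      rw [hcd]
      simp only
      rw [if_pos hh]
    refine Eq.trans e0 ?_
    apply sum_congr rfl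
    intro h _
    unfold Sw
    rw [mul_sum]
    have h2 : ∑ n ∈ Ioc 0 N, d h n * (W n : ℂ) * gg ((n + (B + h) : ℕ) : ℤ) =
        ∑ n ∈ Ioc 0 (Y * x h), d h n * (W n : ℂ) * gg ((n + (B + h) : ℕ) : ℤ) := by
      symm
      apply sum_subset (Ioc_subset_Ioc_right (hx h))
      intro n hn hn'
      rw [mem_Ioc] at hn hn'
      rw [hd]
      simp only
      rw [if_neg (by omega)]
      ring
    rw [h2]
    apply sum_congr rfl
    intro n hn
    rw [mem_Ioc] at hn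
    rw [hd]
    simp only
    rw [if_pos hn.2]
    ring
  have h2 : ∀ k : ℕ, 1 ≤ k → k ≤ 4 * N → gg (k : ℤ) = ((1 - w * om P k : ℝ) : ℂ) * gg (k : ℤ) + (w : ℂ) * ∑ p ∈ P, cp p * Dv gg p k := by
    intro k hk hkN
    have := deckw P hP (4 * N) cp hmc k hk hkN
    push_cast
    linear_combination (w : ℂ) * this
  have h3 : ((∑ h ∈ S, ‖Sw gg W b (Y * x h) (B + h)‖ : ℝ) : ℂ) =
      ∑ h ∈ Icc 1 H, ∑ n ∈ Ioc 0 N, d h n * (W n : ℂ) * (((1 - w * om P (n + (B + h)) : ℝ) : ℂ) * gg ((n + (B + h) : ℕ) : ℤ)) +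
      (w : ℂ) * ∑ p ∈ P, cp p * ∑ n ∈ Ioc 0 N, (b n * (W n : ℂ)) * ∑ h ∈ Icc 1 H, (if n ≤ Y * x h then c h else 0) * Dv gg p (n + (B + h)) := by
    rw [h1]
    have h4 : (w : ℂ) * ∑ p ∈ P, cp p * ∑ n ∈ Ioc 0 N, (b n * (W n : ℂ)) * ∑ h ∈ Icc 1 H, (if n ≤ Y * x h then c h else 0) * Dv gg p (n + (B + h)) =
        ∑ h ∈ Icc 1 H, ∑ n ∈ Ioc 0 N, d h n * (W n : ℂ) * ((w : ℂ) * ∑ p ∈ P, cp p * Dv gg p (n + (B + h))) := by
      rw [mul_sum]
      have e1 : ∀ p ∈ P, (w : ℂ) * (cp p * ∑ n ∈ Ioc 0 N, (b n * (W n : ℂ)) * ∑ h ∈ Icc 1 H, (if n ≤ Y * x h then c h else 0) * Dv gg p (n + (B + h))) =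
          ∑ h ∈ Icc 1 H, ∑ n ∈ Ioc 0 N, d h n * (W n : ℂ) * ((w : ℂ) * (cp p * Dv gg p (n + (B + h)))) := by
        intro p _
        rw [mul_sum, mul_sum, sum_comm]
        apply sum_congr rfl
        intro n _
        rw [mul_sum, mul_sum, mul_sum]
        apply sum_congr rfl
        intro h _
        rw [hd]
        simp only
        split_ifs <;> ring
      rw [sum_congr rfl e1, sum_comm]
      apply sum_congr rfl
      intro h _
      rw [sum_comm]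
      apply sum_congr rfl
      intro n _
      rw [mul_sum, mul_sum]
    rw [h4, ← sum_add_distrib]
    apply sum_congr rfl
    intro h hh
    rw [mem_Icc] at hh
    rw [← sum_add_distrib]
    apply sum_congr rfl
    intro n hn
    rw [mem_Ioc] at hn
    nth_rewrite 1 [h2 (n + (B + h)) (by omega) (by omega)]
    ring
  have h0 : (0 : ℝ) ≤ ∑ h ∈ S, ‖Sw gg W b (Y * x h) (B + h)‖ := sum_nonneg fun _ _ => norm_nonneg _
  have h5 : ∑ h ∈ S, ‖Sw gg W b (Y * x h) (B + h)‖ = ‖((∑ h ∈ S, ‖Sw gg W b (Y * x h) (B + h)‖ : ℝ) : ℂ)‖ := by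
    rw [Complex.norm_real, Real.norm_eq_abs, abs_of_nonneg h0]
  rw [h5, h3]
  refine (norm_add_le _ _).trans ?_
  have t1 : ‖∑ h ∈ Icc 1 H, ∑ n ∈ Ioc 0 N, d h n * (W n : ℂ) * (((1 - w * om P (n + (B + h)) : ℝ) : ℂ) * gg ((n + (B + h) : ℕ) : ℤ))‖ ≤
      ∑ h ∈ S, ∑ n ∈ Ioc 0 N, W n * (|1 - w * om P (n + (B + h))| * ‖gg ((n + (B + h) : ℕ) : ℤ)‖) := by
    rw [← sum_subset hS (fun h _ hh => sum_eq_zero fun n _ => by rw [hdS h n hh, zero_mul, zero_mul])]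
    refine (norm_sum_le _ _).trans (sum_le_sum fun h hh => (norm_sum_le _ _).trans (sum_le_sum fun n hn => ?_))
    rw [norm_mul, norm_mul, norm_mul, Complex.norm_real, Complex.norm_real, Real.norm_eq_abs, Real.norm_eq_abs, abs_of_nonneg (hW0 n)]
    calc ‖d h n‖ * W n * (|1 - w * om P (n + (B + h))| * ‖gg ((n + (B + h) : ℕ) : ℤ)‖) ≤
          1 * W n * (|1 - w * om P (n + (B + h))| * ‖gg ((n + (B + h) : ℕ) : ℤ)‖) := by
          apply mul_le_mul_of_nonneg_right _ (by positivity)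
          exact mul_le_mul_of_nonneg_right (hdn h n) (hW0 n)
      _ = _ := by ring
  have t3 : ‖(w : ℂ) * ∑ p ∈ P, cp p * ∑ n ∈ Ioc 0 N, (b n * (W n : ℂ)) * ∑ h ∈ Icc 1 H, (if n ≤ Y * x h then c h else 0) * Dv gg p (n + (B + h))‖ ≤
      w * ∑ j ∈ range m, ∑ p ∈ P, ∑ n ∈ Icc 1 (3 * N), sh W B n * ‖Gzg gg (fun h => if j < x h then c h else 0) H p n‖ := by
    rw [norm_mul, Complex.norm_real, Real.norm_eq_abs, abs_of_nonneg hw]
    apply mul_le_mul_of_nonneg_left _ hw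
    refine le_trans ?_ (le_of_eq sum_comm)
    refine (norm_sum_le _ _).trans (sum_le_sum fun p hp => ?_)
    rw [norm_mul]
    refine (mul_le_of_le_one_left (norm_nonneg _) (hmc.1 p hp)).trans ?_
    refine (norm_sum_le _ _).trans ?_
    have g1 : ∀ n ∈ Ioc 0 N, ‖(b n * (W n : ℂ)) * ∑ h ∈ Icc 1 H, (if n ≤ Y * x h then c h else 0) * Dv gg p (n + (B + h))‖ ≤
        ∑ j ∈ range m, W n * ‖Gzg gg (fun h => if j < x h then c h else 0) H p ((n + B : ℕ) : ℤ)‖ := by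
      intro n hn
      rw [mem_Ioc] at hn
      have e1 : ∀ h, (n ≤ Y * x h) ↔ (n - 1) / Y < x h := by
        intro h
        rw [Nat.div_lt_iff_lt_mul hY, mul_comm (x h)]
        omega
      have e2 : ∑ h ∈ Icc 1 H, (if n ≤ Y * x h then c h else 0) * Dv gg p (n + (B + h)) =
          Gzg gg (fun h => if (n - 1) / Y < x h then c h else 0) H p ((n + B : ℕ) : ℤ) := by
        rw [Gzg_Dv]
        apply sum_congr rfl
        intro h _
        by_cases q : n ≤ Y * x h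
        · rw [if_pos q, if_pos ((e1 h).1 q)]
        · rw [if_neg q, if_neg (fun q' => q ((e1 h).2 q'))]
      rw [e2, norm_mul, norm_mul, Complex.norm_real, Real.norm_eq_abs, abs_of_nonneg (hW0 n)]
      have e3 : (n - 1) / Y ∈ range m := by
        rw [mem_range, Nat.div_lt_iff_lt_mul hY, mul_comm m]
        omega
      refine le_trans ?_ (single_le_sum (f := fun j => W n * ‖Gzg gg (fun h => if j < x h then c h else 0) H p ((n + B : ℕ) : ℤ)‖)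
        (fun j _ => mul_nonneg (hW0 n) (norm_nonneg _)) e3)
      apply mul_le_mul_of_nonneg_right _ (norm_nonneg _)
      calc ‖b n‖ * W n ≤ 1 * W n := mul_le_mul_of_nonneg_right (hb n) (hW0 n)
        _ = _ := one_mul _
    refine (sum_le_sum g1).trans ?_
    rw [sum_comm]
    apply sum_le_sum
    intro j _
    have g2 : ∑ n ∈ Ioc 0 N, W n * ‖Gzg gg (fun h => if j < x h then c h else 0) H p ((n + B : ℕ) : ℤ)‖ =
        ∑ n ∈ (Ioc 0 N).image (fun n => n + B), sh W B n * ‖Gzg gg (fun h => if j < x h then c h else 0) H p n‖ := by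
      rw [sum_image (fun x _ y _ h => by simpa using h)]
      apply sum_congr rfl
      intro n hn
      rw [mem_Ioc] at hn
      rw [sh_add W B n (by omega)]
    rw [g2]
    have hsh0 : ∀ n, 0 ≤ sh W B n := by
      intro n
      unfold sh
      split_ifs
      · exact hW0 _
      · exact le_rfl
    apply sum_le_sum_of_subset_of_nonneg
    · intro n hn
      rw [mem_image] at hn
      obtain ⟨m', hm, rfl⟩ := hn
      rw [mem_Ioc] at hm
      rw [mem_Icc]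
      omega
    · intro n _ _
      exact mul_nonneg (hsh0 n) (norm_nonneg _)
  linarith

theorem w1wS (f D q : ℕ) (hf : 1 ≤ f) (hq : 1 ≤ q) (Kf : ℕ) (hKf : KF f Kf) (φ α β : ℝ) (hφ : φ ≤ f) (hσα : (f : ℝ) - φ < α) (hαβ : α < β) (hβφ : β < φ) (ε : ℝ) (hε : 0 < ε) :
    ∃ e : ℝ, 0 < e ∧ ∀ J₀ : ℕ, ∃ N₀ : ℕ, ∀ N : ℕ, N₀ ≤ N → ∀ z₀ : ℕ, N₀ ≤ z₀ → z₀ ≤ N →
      Real.log (Real.log (3 * N : ℕ)) ^ Kf ≤ Real.log z₀ → ∀ gg : ℤ → ℂ, Gd gg → Mts gg e J₀ (3 * N) →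
      ∀ cp : ℕ → ℂ, Mc (WH.PP α β z₀) (4 * N) cp gg →
      ∀ H : ℕ, Real.log z₀ ^ φ ≤ H → (H : ℝ) ≤ Real.log z₀ ^ (f + 1) →
      ∀ a : Fin f → ℤ, Sep a D → (∀ i, |a i| ≤ 2 * N) → ∀ W : ℕ → ℝ, Wt a z₀ W → ∀ B : ℕ, B ≤ 2 * N → ∀ b : ℕ → ℂ, (∀ n, ‖b n‖ ≤ 1) →
      ∀ X : ℕ → ℕ, (∀ h, X h ≤ N) → ∀ r : ℕ,
      ∑ h ∈ St q r H, ‖Sw gg W b (X h) (B + h)‖ ≤
        √((1 + RP (WH.PP α β z₀))⁻¹) * √(((St q r H).card * Tw W N) * Qs gg W N B (St q r H)) + ε * (H * N) := by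
  classical
  have hα0 : 0 < α := by linarith
  obtain ⟨C6, hC6, hint⟩ := w_int f hf D
  -- the parameters
  obtain ⟨m, hm⟩ := exists_nat_ge (8 * C6 / ε + 2)
  have h8 : 0 < 8 * C6 / ε := by positivity
  have hm2r : (2 : ℝ) ≤ m := by linarith
  have hm2 : 2 ≤ m := by exact_mod_cast hm2r
  have hm0 : (0 : ℝ) < m := by linarith
  obtain ⟨ε₂, hε₂⟩ : ∃ ε₂, ε₂ = ε / (36 * m) := ⟨_, rfl⟩
  have hε₂0 : 0 < ε₂ := by rw [hε₂]; positivity
  obtain ⟨ε₄, hε₄⟩ : ∃ ε₄ : ℝ, ε₄ = ε ^ 2 / (48 * C6) := ⟨_, rfl⟩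
  have hε₄0 : 0 < ε₄ := by rw [hε₄]; positivity
  obtain ⟨e, he0, hblocks⟩ := blocksw f D hf Kf hKf φ α β hφ hσα hαβ hβφ ε₂ hε₂0
  refine ⟨e, he0, fun J₀ => ?_⟩
  obtain ⟨N₁, hblocks⟩ := hblocks J₀
  obtain ⟨N₂, hmom⟩ := momwS f D q hq hf φ α β hα0 hαβ hβφ hφ (ε₄ / 3) (by positivity)
  obtain ⟨N₃, hint⟩ := hint (1 / m) (by positivity)
  obtain ⟨N₅, hpar⟩ := eventually_atTop.1 ((params3 φ 0 α β le_rfl hα0 hαβ hβφ 1 1 1 1 one_pos).and (log_pow_le 1 (f + 1) 1 one_pos))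
  refine ⟨N₁ + N₂ + N₃ + N₅ + m + 3, fun N hN z₀ hz₀ hz₀N hLK gg hgg hmts cp hmc H hH1 hH2 a hs ha W hW B hB b hb X hX r => ?_⟩
  obtain ⟨⟨p1, p2, p3, -⟩, p9⟩ := hpar z₀ (by omega)
  obtain ⟨P, hPd⟩ : ∃ P, P = WH.PP α β z₀ := ⟨_, rfl⟩
  have hN3 : 3 ≤ N := by omega
  have hN3r : (3 : ℝ) ≤ N := by exact_mod_cast hN3
  have hN0 : (0 : ℝ) < N := by linarith
  have hH0 : (0 : ℝ) < H := by
    refine lt_of_lt_of_le ?_ hH1
    apply Real.rpow_pos_of_pos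
    linarith
  have hHNn : H ≤ N := by
    rw [one_mul, Real.rpow_one] at p9
    have : (H : ℝ) ≤ z₀ := hH2.trans p9
    have : H ≤ z₀ := by exact_mod_cast this
    omega
  have hHN : (0 : ℝ) < H * N := by positivity
  have hPp : ∀ p ∈ P, p.Prime := by
    intro p hp
    rw [hPd] at hp
    unfold Pool.Agent.H617.WH.PP at hp
    rw [mem_mid] at hp
    exact hp.2.2
  have hPw : ∀ p ∈ P, p.Prime ∧ 1 < p := fun p hp => ⟨hPp p hp, (hPp p hp).one_lt⟩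
  have hR0 := RP_nonneg P
  have hR1 := R1_le_RP (w := 1) le_rfl hPw
  have hR10 := R1_nonneg hPp
  obtain ⟨w, hw⟩ : ∃ w, w = (1 + RP P)⁻¹ := ⟨_, rfl⟩
  rw [← hPd] at hmc
  rw [← hPd, ← hw]
  have hw0 : 0 < w := by rw [hw]; positivity
  have hw1 : w * (1 + RP P) = 1 := by rw [hw]; exact inv_mul_cancel₀ (by positivity)
  have hwle : w ≤ 1 := aux_w hw0 hR0 hw1
  have hwR1 : w * (1 + R1 P) ≤ 3 := by
    calc w * (1 + R1 P) ≤ w * ((1 + RP P) + 2) := by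
          apply mul_le_mul_of_nonneg_left _ hw0.le
          norm_num at hR1
          linarith
      _ = w * (1 + RP P) + w * 2 := by ring
      _ ≤ 3 := by rw [hw1]; linarith
  -- the grid
  obtain ⟨Y, hY⟩ : ∃ Y, Y = N / m + 1 := ⟨_, rfl⟩
  have hY1 : N < m * Y := by rw [hY]; exact Nat.lt_mul_div_succ _ (by omega)
  have hY2 : Y ≤ N := by
    have : N / m ≤ N / 2 := Nat.div_le_div_left hm2 (by norm_num)
    omega
  have hY3 : m * Y ≤ 2 * N := by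
    have := Nat.mul_div_le N m
    have : m * Y = m * (N / m) + m := by rw [hY]; ring
    omega
  have hY0 : 1 ≤ Y := by rw [hY]; exact Nat.le_add_left 1 _
  have hYr0 : (0 : ℝ) ≤ Y := Nat.cast_nonneg _
  have hYlow : 1 / (m : ℝ) * N ≤ Y := by
    have : (N : ℝ) ≤ m * Y := by exact_mod_cast hY1.le
    rw [one_div, inv_mul_le_iff₀ hm0]
    exact this
  have hYε : C6 * (Y : ℝ) ≤ ε / 4 * N := by
    have g1 : (m : ℝ) * Y ≤ 2 * N := by exact_mod_cast hY3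
    exact aux_Yr g1 (aux_m hε (by linarith)) hYr0 hε
  obtain ⟨S, hS⟩ : ∃ S, S = St q r H := ⟨_, rfl⟩
  have hSsub : S ⊆ Icc 1 H := by rw [hS]; exact st_sub q r H
  have hSc : (S.card : ℝ) ≤ H := by
    have := card_le_card hSsub
    rw [Nat.card_Icc, Nat.add_sub_cancel] at this
    exact_mod_cast this
  have hSc0 : (0 : ℝ) ≤ S.card := Nat.cast_nonneg _
  rw [← hS]
  have hround : ∀ h ∈ S, ‖Sw gg W b (X h) (B + h)‖ ≤ ‖Sw gg W b (Y * (X h / Y)) (B + h)‖ + ε / 4 * N := by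
    intro h _
    have hk1 : Y * (X h / Y) ≤ X h := Nat.mul_div_le _ _
    have hk2 : X h < Y * (X h / Y + 1) := Nat.lt_mul_div_succ _ (by omega)
    rw [mul_add, mul_one] at hk2
    have g1 := Sw_diff hgg hW.nn b hb (X h) (Y * (X h / Y)) (B + h) hk1
    have g2 : ∑ n ∈ Ioc (Y * (X h / Y)) (X h), W n ≤
        ∑ n ∈ Ioc (Y * (X h / Y)) (Y * (X h / Y) + Y), W n := by
      apply sum_le_sum_of_subset_of_nonneg
      · exact Ioc_subset_Ioc_right (by omega)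
      · intro n _ _
        exact hW.nn n
    have g3 := hint N (by omega) z₀ (by omega) hz₀N Y (Y * (X h / Y)) hYlow hY2 a hs W hW
    linarith
  -- the decomposition
  obtain ⟨cj, hcj, hdec⟩ := w0wS S P hPp w hw0.le N Y m hY0 (by rw [mul_comm]; exact hY1.le) (fun h => X h / Y)
    (fun h => (Nat.mul_div_le _ _).trans (hX h)) cp hmc W hW.nn B H hSsub hB hHNn b hb
  -- the first part
  obtain ⟨T, hT⟩ : ∃ T, T = Tw W N := ⟨_, rfl⟩
  obtain ⟨Q, hQ⟩ : ∃ Q, Q = Qs gg W N B S := ⟨_, rfl⟩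
  have hQ0 : 0 ≤ Q := by rw [hQ]; exact Qs_nonneg gg hW.nn N B S
  have hQG : Q ≤ S.card * T := by rw [hQ, hT]; exact Qs_le hgg.nrm hW.nn N B S
  rw [← hT, ← hQ]
  have hT0 : 0 ≤ T := by rw [hT]; exact Tw_nonneg hW.nn N
  have hTN : T ≤ C6 * N := by
    have g1 := hint N (by omega) z₀ (by omega) hz₀N N 0 (by
      have : 1 / (m : ℝ) ≤ 1 := by rw [div_le_one hm0]; linarith
      calc 1 / (m : ℝ) * N ≤ 1 * N := mul_le_mul_of_nonneg_right this hN0.le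
        _ = _ := one_mul _) le_rfl a hs W hW
    rw [zero_add] at g1
    rw [hT]
    exact g1
  obtain ⟨G, hG⟩ : ∃ G, G = S.card * T := ⟨_, rfl⟩
  rw [← hG] at hQG ⊢
  have hG0 : 0 ≤ G := by rw [hG]; positivity
  have hG2 : G ≤ C6 * (H * N) := by
    rw [hG]
    calc S.card * T ≤ H * (C6 * N) := mul_le_mul hSc hTN hT0 hH0.le
      _ = _ := by ring
  have hm2' := hmom (3 * N) (by omega) z₀ (by omega) (by omega) H hH1 hH2 a hs W hW B N r (by omega)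
  rw [← hPd, ← hw, ← hS] at hm2'
  have hIoc : (Icc 1 N : Finset ℕ) = Ioc 0 N := by
    ext n
    rw [mem_Icc, mem_Ioc]
    omega
  have hsm'' : ∑ h ∈ S, ∑ n ∈ Ioc 0 N, W n * (1 - w * om P (n + (B + h))) ^ 2 ≤ w * G + ε₄ * (H * N) := by
    rw [sum_comm]
    have e1 : ∑ n ∈ Ioc 0 N, ∑ h ∈ S, W n * (1 - w * om P (n + (B + h))) ^ 2 =
        ∑ n ∈ Icc 1 N, W n * ∑ h ∈ S, (1 - w * om P (n + B + h)) ^ 2 := by
      rw [hIoc]
      apply sum_congr rfl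
      intro n _
      rw [mul_sum]
      apply sum_congr rfl
      intro h _
      rw [add_assoc]
    have e2 : ∑ n ∈ Icc 1 N, W n = T := by
      rw [hIoc, hT]
      rfl
    rw [e1]
    refine hm2'.trans (le_of_eq ?_)
    rw [e2, hG]
    push_cast
    ring
  obtain ⟨T1, hT1⟩ : ∃ T1, T1 = ∑ h ∈ S, ∑ n ∈ Ioc 0 N, W n * (|1 - w * om P (n + (B + h))| * ‖gg ((n + (B + h) : ℕ) : ℤ)‖) := ⟨_, rfl⟩
  rw [← hT1] at hdec
  have hT1b : T1 ≤ √w * √(G * Q) + ε / 4 * (H * N) := by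
    have hcs : T1 ^ 2 ≤ (w * G + ε₄ * (H * N)) * Q := by
      have q := sum_mul_sq_le_sq_mul_sq (S ×ˢ Ioc 0 N)
        (fun r => √(W r.2) * |1 - w * om P (r.2 + (B + r.1))|) (fun r => √(W r.2) * ‖gg ((r.2 + (B + r.1) : ℕ) : ℤ)‖)
      rw [sum_product, sum_product, sum_product] at q
      have q1 : ∀ h n : ℕ, (√(W n) * |1 - w * om P (n + (B + h))|) * (√(W n) * ‖gg ((n + (B + h) : ℕ) : ℤ)‖) =
          W n * (|1 - w * om P (n + (B + h))| * ‖gg ((n + (B + h) : ℕ) : ℤ)‖) := by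
        intro h n
        have := Real.mul_self_sqrt (hW.nn n)
        linear_combination (|1 - w * om P (n + (B + h))| * ‖gg ((n + (B + h) : ℕ) : ℤ)‖) * this
      have q2 : ∀ n : ℕ, √(W n) ^ 2 = W n := fun n => Real.sq_sqrt (hW.nn n)
      simp only [q1, mul_pow, q2, sq_abs] at q
      rw [hT1]
      refine q.trans ?_
      apply mul_le_mul hsm'' (le_of_eq _) _ (by positivity)
      · rw [hQ]
        rfl
      · exact sum_nonneg fun h _ => sum_nonneg fun n _ => mul_nonneg (hW.nn n) (by positivity)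
    have h1 := cs_step' hw0.le hG0 hQ0 (by positivity) hcs
    have h2 : √(Q * (ε₄ * (H * N))) ≤ ε / 4 * (H * N) := by
      have h3 : Q * (ε₄ * (H * N)) ≤ (ε / 4 * (H * N)) ^ 2 := by
        calc Q * (ε₄ * (H * N)) ≤ (C6 * (H * N)) * (ε₄ * (H * N)) := mul_le_mul_of_nonneg_right (hQG.trans hG2) (by positivity)
          _ = ε ^ 2 / 48 * (H * N) ^ 2 := by rw [hε₄]; field_simp
          _ ≤ ε ^ 2 / 16 * (H * N) ^ 2 := by
              apply mul_le_mul_of_nonneg_right _ (by positivity)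
              have : 0 ≤ ε ^ 2 := by positivity
              linarith
          _ = _ := by ring
      exact (Real.sqrt_le_sqrt h3).trans (le_of_eq (Real.sqrt_sq (by positivity)))
    linarith
  -- the second part
  have hT2 : w * ∑ j ∈ range m, ∑ p ∈ P, ∑ n ∈ Icc 1 (3 * N), sh W B n * ‖Gzg gg (cj j) H p n‖ ≤
      ε / 4 * (H * N) := by
    have g1 : ∀ j ∈ range m, ∑ p ∈ P, ∑ n ∈ Icc 1 (3 * N), sh W B n * ‖Gzg gg (cj j) H p n‖ ≤
        ε₂ * ((1 + R1 P) * (H * (3 * N : ℕ))) := by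
      intro j _
      rw [hPd]
      apply hblocks (3 * N) (by omega) z₀ (by omega) (by omega) hLK gg hgg hmts H hH1 hH2 (fun i => a i - B) _ _ _ (wt_sh hW B) (cj j) (hcj j)
      · have := sep_shift' hs (-(B : ℤ))
        exact this
      · intro i
        have := abs_le.1 (ha i)
        rw [abs_le]
        constructor <;> push_cast <;> omega
    have g2 := sum_le_sum g1
    rw [sum_const, card_range, nsmul_eq_mul] at g2
    calc _ ≤ w * (m * (ε₂ * ((1 + R1 P) * (H * (3 * N : ℕ))))) := mul_le_mul_of_nonneg_left g2 hw0.le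
      _ = (w * (1 + R1 P)) * (3 * m * ε₂ * (H * N)) := by push_cast; ring
      _ ≤ 3 * (3 * m * ε₂ * (H * N)) := mul_le_mul_of_nonneg_right hwR1 (by positivity)
      _ = ε / 4 * (H * N) := by
          rw [hε₂]
          field_simp
          norm_num
  -- the conclusion
  have hsumr := sum_le_sum hround
  rw [sum_add_distrib, sum_const, nsmul_eq_mul] at hsumr
  have e4 : (S.card : ℝ) * (ε / 4 * N) ≤ ε / 4 * (H * N) := by
    calc (S.card : ℝ) * (ε / 4 * N) ≤ H * (ε / 4 * N) := mul_le_mul_of_nonneg_right hSc (by positivity)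
      _ = _ := by ring
  have := mul_pos hε hHN
  linarith

end Pool.Agent.H617.WQ
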