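import Mathlib
import Pool.Agent.H617.WQ.C

set_option autoImplicit false

/-! The shifts of a progression in a window: all the lengths. -/

namespace Pool.Agent.H617.WQ
open Finset Filter Topology
open Pool.Agent.H373R2.T7 (Vz Vz_pos pz mem_pz)
open Pool.Agent.E8helper16.SL
open Pool.Agent.H617.WH
open Pool.Agent.H617.WK
open Pool.Agent.H617.WN

lemma split_st (q r : ℕ) (u : ℕ → ℝ) (G H : ℕ) (h : G ≤ H) :
    ∑ i ∈ St q r H, u i = ∑ i ∈ St q r G, u i + ∑ i ∈ St q (r + G) (H - G), u (G + i) := by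
  unfold St
  rw [sum_filter, sum_filter, sum_filter, split_win _ G H h]
  congr 1
  apply sum_congr rfl
  intro i _
  have e : G + i + r = i + (r + G) := by ring
  rw [e]

lemma Qs_split (gg : ℤ → ℂ) (W : ℕ → ℝ) (N B q r G H : ℕ) (h : G ≤ H) :
    Qs gg W N B (St q r H) = Qs gg W N B (St q r G) + Qs gg W N (B + G) (St q (r + G) (H - G)) := by
  unfold Qs
  rw [split_st q r _ G H h]
  congr 1
  apply sum_congr rfl
  intro i _
  apply sum_congr rfl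
  intro n _
  have : n + (B + (G + i)) = n + (B + G + i) := by ring
  rw [this]

theorem w2wS (f D q : ℕ) (hf : 1 ≤ f) (hq : 1 ≤ q) (Kf : ℕ) (hKf : KF f Kf) (θ : ℝ) (hθ1 : 1 / 2 < θ) (hθ2 : θ < 1) (ε : ℝ) (hε : 0 < ε) :
    ∃ α β : ℝ, 0 < α ∧ α < β ∧ β ≤ f ∧ ∃ e : ℝ, 0 < e ∧ ∀ J₀ : ℕ, ∃ N₀ : ℕ, ∀ N : ℕ, N₀ ≤ N → ∀ z₀ : ℕ, N₀ ≤ z₀ → z₀ ≤ N →
      Real.log (Real.log (3 * N : ℕ)) ^ Kf ≤ Real.log z₀ → ∀ gg : ℤ → ℂ, Gd gg → Mts gg e J₀ (3 * N) →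
      ∀ cp : ℕ → ℂ, Mc (WH.PP α β z₀) (4 * N) cp gg →
      ∀ H : ℕ, Real.log z₀ ^ ((f : ℝ) * θ) ≤ H → (H : ℝ) ≤ Real.log z₀ ^ (f + 1) →
      ∀ a : Fin f → ℤ, Sep a D → (∀ i, |a i| ≤ 2 * N) → ∀ W : ℕ → ℝ, Wt a z₀ W → ∀ B : ℕ, B ≤ 2 * N → ∀ b : ℕ → ℂ, (∀ n, ‖b n‖ ≤ 1) →
      ∀ X : ℕ → ℕ, (∀ h, X h ≤ N) → ∀ r : ℕ,
      ∑ h ∈ St q r H, ‖Sw gg W b (X h) (B + h)‖ ≤ kap θ * √(((St q r H).card * Tw W N) * Qs gg W N B (St q r H)) + ε * (H * N) := by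
  obtain ⟨C6, hC6, hint⟩ := w_int f hf D
  have hfr : (1 : ℝ) ≤ f := by exact_mod_cast hf
  have hfr0 : (0 : ℝ) < f := by linarith
  obtain ⟨δ, hδ0, hδ1, hδ2, hδ3⟩ := choose_delta θ hθ1 hθ2 (ε / (2 * C6)) (by positivity)
  obtain ⟨φ, hφd⟩ : ∃ φ, φ = (f : ℝ) * θ := ⟨_, rfl⟩
  obtain ⟨α, hαd⟩ : ∃ α, α = (f : ℝ) * (1 - θ + 2 * δ) := ⟨_, rfl⟩
  obtain ⟨β, hβd⟩ : ∃ β, β = (f : ℝ) * (θ - 2 * δ) := ⟨_, rfl⟩
  have hφf : φ ≤ f := by rw [hφd]; nlinarith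
  have hσα : (f : ℝ) - φ < α := by rw [hφd, hαd]; nlinarith
  have hαβ : α < β := by rw [hαd, hβd]; nlinarith
  have hβφ : β < φ := by rw [hφd, hβd]; nlinarith
  have hα0 : 0 < α := by rw [hαd]; apply mul_pos hfr0; linarith
  rw [← hφd]
  obtain ⟨e, he0, h1⟩ := w1wS f D q hf hq Kf hKf φ α β hφf hσα hαβ hβφ (ε / 2) (by positivity)
  refine ⟨α, β, hα0, hαβ, (hβφ.le.trans hφf), e, he0, fun J₀ => ?_⟩
  obtain ⟨N₁, h1⟩ := h1 J₀
  obtain ⟨I, hI⟩ := exists_nat_ge (4 / δ + 1)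
  obtain ⟨N₂, h2⟩ := eventually_atTop.1 (params3 φ 0 α β le_rfl hα0 hαβ hβφ 1 I 1 (δ / 2) (by positivity))
  obtain ⟨N₃, h3⟩ := hint 1 one_pos
  refine ⟨N₁ + N₂ + N₃ + 3, fun N hN z₀ hz₀ hz₀N hLK gg hgg hmts cp hmc H hH1 hH2 a hs ha W hW B hB b hb X hX r => ?_⟩
  obtain ⟨r1, -, -, -, -, -, -, p8⟩ := h2 z₀ (by omega)
  have hN3r : (3 : ℝ) ≤ N := by exact_mod_cast (by omega : 3 ≤ N)
  have hN0 : (0 : ℝ) < N := by linarith
  have key := h1 N (by omega) z₀ (by omega) hz₀N hLK gg hgg hmts cp hmc H hH1 hH2 a hs ha W hW B hB b hb X hX r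
  refine key.trans ?_
  obtain ⟨P, hP⟩ : ∃ P, P = WH.PP α β z₀ := ⟨_, rfl⟩
  rw [← hP] at p8 ⊢
  have hRlow : Real.log ((θ - 2 * δ) / (1 - θ + 2 * δ)) - δ ≤ RP P := by
    have e1 : β / α = (θ - 2 * δ) / (1 - θ + 2 * δ) := by
      rw [hβd, hαd, mul_div_mul_left _ _ hfr0.ne']
    rw [e1] at p8
    have hI1 : 4 / δ + 1 ≤ I := hI
    have h4δ : 0 < 4 / δ := by positivity
    have hI0 : (0 : ℝ) < I := by linarith
    have hIn : 1 ≤ I := by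
      have : (1 : ℝ) ≤ I := by linarith
      exact_mod_cast this
    have g1 := R1_le_RP (P := P) (w := I) hIn (by
      intro p hp
      rw [hP] at hp
      unfold Pool.Agent.H617.WH.PP at hp
      rw [mem_mid] at hp
      refine ⟨hp.2.2, lt_of_le_of_lt ?_ hp.1⟩
      exact r1.trans (Nat.lt_two_pow_self).le)
    have g2 : 2 / (I : ℝ) ≤ δ / 2 := by
      rw [div_le_iff₀ hI0]
      have : 4 / δ ≤ I := by linarith
      rw [div_le_iff₀ hδ0] at this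
      linarith
    linarith
  have h5 := hδ3 _ hRlow
  have hT0 := Tw_nonneg hW.nn N
  have hTN : Tw W N ≤ C6 * N := by
    have g1 := h3 N (by omega) z₀ (by omega) hz₀N N 0 (by rw [one_mul]) le_rfl a hs W hW
    rw [zero_add] at g1
    exact g1
  have hH0 : (0 : ℝ) ≤ H := Nat.cast_nonneg _
  obtain ⟨S, hS⟩ : ∃ S, S = St q r H := ⟨_, rfl⟩
  have hSsub : S ⊆ Icc 1 H := by rw [hS]; exact st_sub q r H
  have hSc : (S.card : ℝ) ≤ H := by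
    have := card_le_card hSsub
    rw [Nat.card_Icc, Nat.add_sub_cancel] at this
    exact_mod_cast this
  have hSc0 : (0 : ℝ) ≤ S.card := Nat.cast_nonneg _
  rw [← hS]
  obtain ⟨G, hG⟩ : ∃ G, G = S.card * Tw W N := ⟨_, rfl⟩
  obtain ⟨Q, hQ⟩ : ∃ Q, Q = Qs gg W N B S := ⟨_, rfl⟩
  have hQ0 : 0 ≤ Q := by rw [hQ]; exact Qs_nonneg gg hW.nn N B S
  have hQG : Q ≤ G := by rw [hQ, hG]; exact Qs_le hgg.nrm hW.nn N B S
  rw [← hG, ← hQ]
  have hG0 : 0 ≤ G := by rw [hG]; positivity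
  have hG2 : √(G * Q) ≤ C6 * (H * N) := by
    have g1 : √(G * Q) ≤ G := by
      rw [Real.sqrt_le_left hG0]
      calc G * Q ≤ G * G := mul_le_mul_of_nonneg_left hQG hG0
        _ = G ^ 2 := by ring
    refine g1.trans ?_
    rw [hG]
    calc S.card * Tw W N ≤ H * (C6 * N) := mul_le_mul hSc hTN hT0 hH0
      _ = _ := by ring
  have h6 := mul_le_mul_of_nonneg_right h5 (Real.sqrt_nonneg (G * Q))
  have h7 : ε / (2 * C6) * √(G * Q) ≤ ε / 2 * (H * N) := by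
    calc ε / (2 * C6) * √(G * Q) ≤ ε / (2 * C6) * (C6 * (H * N)) := mul_le_mul_of_nonneg_left hG2 (by positivity)
      _ = _ := by field_simp
  calc _ ≤ (kap θ + ε / (2 * C6)) * √(G * Q) + ε / 2 * (H * N) := add_le_add h6 le_rfl
    _ = kap θ * √(G * Q) + ε / (2 * C6) * √(G * Q) + ε / 2 * (H * N) := by ring
    _ ≤ kap θ * √(G * Q) + ε / 2 * (H * N) + ε / 2 * (H * N) := by linarith
    _ = _ := by ring

theorem w3wS (f D q : ℕ) (hf : 1 ≤ f) (hq : 1 ≤ q) (Kf : ℕ) (hKf : KF f Kf) (θ : ℝ) (hθ1 : 1 / 2 < θ) (hθ2 : θ < 1) (ε : ℝ) (hε : 0 < ε) :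
    ∃ α β : ℝ, 0 < α ∧ α < β ∧ β ≤ f ∧ ∃ e : ℝ, 0 < e ∧ ∀ J₀ : ℕ, ∃ N₀ : ℕ, ∀ N : ℕ, N₀ ≤ N → ∀ z₀ : ℕ, N₀ ≤ z₀ → z₀ ≤ N →
      Real.log (Real.log (3 * N : ℕ)) ^ Kf ≤ Real.log z₀ → ∀ gg : ℤ → ℂ, Gd gg → Mts gg e J₀ (3 * N) →
      ∀ cp : ℕ → ℂ, Mc (WH.PP α β z₀) (4 * N) cp gg →
      ∀ H : ℕ, Real.log z₀ ^ ((f : ℝ) * θ) ≤ H →
      ∀ a : Fin f → ℤ, Sep a D → (∀ i, |a i| ≤ 2 * N) → ∀ W : ℕ → ℝ, Wt a z₀ W → ∀ B : ℕ, B + H ≤ 2 * N → ∀ b : ℕ → ℂ, (∀ n, ‖b n‖ ≤ 1) →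
      ∀ X : ℕ → ℕ, (∀ h, X h ≤ N) → ∀ r : ℕ,
      ∑ h ∈ St q r H, ‖Sw gg W b (X h) (B + h)‖ ≤ kap θ * √(((St q r H).card * Tw W N) * Qs gg W N B (St q r H)) + ε * (H * N) := by
  have hfr : (1 : ℝ) ≤ f := by exact_mod_cast hf
  have hfr0 : (0 : ℝ) < f := by linarith
  obtain ⟨α, β, hα, hαβ, hβ, e, he, h1⟩ := w2wS f D q hf hq Kf hKf θ hθ1 hθ2 ε hε
  refine ⟨α, β, hα, hαβ, hβ, e, he, fun J₀ => ?_⟩
  obtain ⟨N₁, h1⟩ := h1 J₀
  obtain ⟨N₂, h2⟩ := eventually_atTop.1 (log_tendsto.eventually_ge_atTop 4)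
  refine ⟨N₁ + N₂, fun N hN z₀ hz₀ hz₀N hLK gg hgg hmts cp hmc H₁ hH₁ a hs ha W hW B₁ hB₁ b hb X₁ hX₁ => ?_⟩
  have hL4 := h2 z₀ (by omega)
  obtain ⟨L, hL⟩ : ∃ L, L = Real.log z₀ := ⟨_, rfl⟩
  rw [← hL] at hL4 hH₁
  have hL0 : 0 < L := by linarith
  obtain ⟨y, hy⟩ : ∃ y, y = L ^ ((f : ℝ) * θ) := ⟨_, rfl⟩
  rw [← hy] at hH₁
  have hy0 : 0 < y := by rw [hy]; positivity
  have hyL : y ≤ L ^ f := by
    rw [hy, ← Real.rpow_natCast L f]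
    apply Real.rpow_le_rpow_of_exponent_le (by linarith)
    nlinarith
  have hLf1 : 1 ≤ L ^ f := one_le_pow₀ (by linarith)
  have hLff : 4 * L ^ f ≤ L ^ (f + 1) := by
    rw [pow_succ, mul_comm]
    exact mul_le_mul_of_nonneg_left hL4 (by positivity)
  obtain ⟨G, hG⟩ : ∃ G, G = ⌈y⌉₊ := ⟨_, rfl⟩
  have hG1 : y ≤ G := by rw [hG]; exact Nat.le_ceil _
  have hG2 : (G : ℝ) ≤ y + 1 := by rw [hG]; exact (Nat.ceil_lt_add_one hy0.le).le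
  have hGL : (G : ℝ) ≤ L ^ (f + 1) := by linarith
  have hT0 := Tw_nonneg hW.nn N
  have hk0 := kap_nonneg θ
  have main : ∀ H : ℕ, y ≤ H → ∀ B : ℕ, B + H ≤ 2 * N → ∀ X : ℕ → ℕ, (∀ h, X h ≤ N) → ∀ r : ℕ,
      ∑ h ∈ St q r H, ‖Sw gg W b (X h) (B + h)‖ ≤ kap θ * √(((St q r H).card * Tw W N) * Qs gg W N B (St q r H)) + ε * (H * N) := by
    intro H
    induction H using Nat.strong_induction_on with
    | _ H ih =>
      intro hH B hB X hX r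
      by_cases hsH : (H : ℝ) ≤ L ^ (f + 1)
      · exact h1 N (by omega) z₀ (by omega) hz₀N hLK gg hgg hmts cp hmc H (by rw [← hL, ← hy]; exact hH) (by rw [← hL]; exact hsH) a hs ha W hW B (by omega) b hb X hX r
      · push Not at hsH
        have hGHr : (G : ℝ) + y ≤ H := by linarith
        have hGH : G ≤ H := by
          have : (G : ℝ) ≤ H := by linarith
          exact_mod_cast this
        have hG0 : 0 < G := by
          have : (0 : ℝ) < G := by linarith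
          exact_mod_cast this
        have hHG : y ≤ ((H - G : ℕ) : ℝ) := by
          rw [Nat.cast_sub hGH]
          linarith
        have i1 := ih (H - G) (by omega) hHG (B + G) (by omega) (fun h => X (G + h)) (fun h => hX _) (r + G)
        have i2 := h1 N (by omega) z₀ (by omega) hz₀N hLK gg hgg hmts cp hmc G (by rw [← hL, ← hy]; exact hG1) (by rw [← hL]; exact hGL) a hs ha W hW B (by omega) b hb X hX r
        have e1 := split_st q r (fun h => ‖Sw gg W b (X h) (B + h)‖) G H hGH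
        have e1c : ((St q r H).card : ℝ) = (St q r G).card + (St q (r + G) (H - G)).card := by
          have := split_st q r (fun _ => (1 : ℝ)) G H hGH
          rw [sum_const, sum_const, sum_const, nsmul_eq_mul, nsmul_eq_mul, nsmul_eq_mul, mul_one, mul_one, mul_one] at this
          exact this
        rw [e1, Qs_split gg W N B q r G H hGH]
        have e3 : ((H - G : ℕ) : ℝ) = H - G := Nat.cast_sub hGH
        have e4 : ∀ i, B + (G + i) = B + G + i := fun i => by ring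
        simp only [e4]
        obtain ⟨Q1, hQ1⟩ : ∃ Q1, Q1 = Qs gg W N B (St q r G) := ⟨_, rfl⟩
        obtain ⟨Q2, hQ2⟩ : ∃ Q2, Q2 = Qs gg W N (B + G) (St q (r + G) (H - G)) := ⟨_, rfl⟩
        have hQ10 : 0 ≤ Q1 := by rw [hQ1]; exact Qs_nonneg gg hW.nn _ _ _
        have hQ20 : 0 ≤ Q2 := by rw [hQ2]; exact Qs_nonneg gg hW.nn _ _ _
        rw [← hQ1, ← hQ2]
        rw [← hQ1] at i2
        rw [← hQ2] at i1
        have hGr0 : (0 : ℝ) ≤ (St q r G).card := Nat.cast_nonneg _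
        have hHG0 : (0 : ℝ) ≤ (St q (r + G) (H - G)).card := Nat.cast_nonneg _
        have g1 := sqrt_add_cs (mul_nonneg hGr0 hT0) hQ10 (mul_nonneg hHG0 hT0) hQ20
        have g2 : ((St q r G).card : ℝ) * Tw W N + (St q (r + G) (H - G)).card * Tw W N = (St q r H).card * Tw W N := by rw [e1c]; ring
        rw [g2] at g1
        have g3 := mul_le_mul_of_nonneg_left g1 hk0
        have g4 : ε * ((G : ℝ) * N) + ε * (((H - G : ℕ) : ℝ) * N) = ε * (H * N) := by rw [e3]; ring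
        linarith
  exact main H₁ hH₁ B₁ (by omega) X₁ hX₁

end Pool.Agent.H617.WQ
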