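import Mathlib
import Pool.Agent.H617.WQ.D

set_option autoImplicit false

/-! The shifts of a progression in a window: real multiplicative functions. -/

namespace Pool.Agent.H617.WQ
open Finset Filter Topology
open Pool.Agent.H373R2.T7 (Vz Vz_pos pz mem_pz exI energy)
open Pool.Agent.E8helper16.SL
open Pool.Agent.H617.WH
open Pool.Agent.H617.WK
open Pool.Agent.H617.WN
open Pool.Agent.Helper82K9.EL (RMul FarR dstR famR Sm)
open Pool.Agent.TH823.MRS (exI_norm1)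

/-- the sum over the shifts for real multiplicative functions -/
theorem realwS (f D q : ℕ) (hf : 1 ≤ f) (hq : 1 ≤ q) (Kf : ℕ) (hKf : KF f Kf) (θ : ℝ) (hθ1 : 1 / 2 < θ) (hθ2 : θ < 1) (ε : ℝ) (hε : 0 < ε) :
    ∃ A N₀ : ℕ, ∀ N : ℕ, N₀ ≤ N → ∀ z₀ : ℕ, N₀ ≤ z₀ → z₀ ≤ N →
      Real.log (Real.log (3 * N : ℕ)) ^ Kf ≤ Real.log z₀ → ∀ F : ℕ → ℝ, RMul F → FarR A N F →
      ∀ H : ℕ, Real.log z₀ ^ ((f : ℝ) * θ) ≤ H →
      ∀ a : Fin f → ℤ, Sep a D → (∀ i, |a i| ≤ 2 * N) → ∀ W : ℕ → ℝ, Wt a z₀ W → ∀ B : ℕ, B + H ≤ 2 * N → ∀ b : ℕ → ℂ, (∀ n, ‖b n‖ ≤ 1) →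
      ∀ X : ℕ → ℕ, (∀ h, X h ≤ N) → ∀ r : ℕ,
      ∑ h ∈ St q r H, ‖∑ n ∈ Ioc 0 (X h), b n * (W n : ℂ) * (F (n + (B + h)) : ℂ)‖ ≤
        kap θ * √(((St q r H).card * ∑ n ∈ Ioc 0 N, W n) * ∑ h ∈ St q r H, ∑ n ∈ Ioc 0 N, W n * F (n + (B + h)) ^ 2) + ε * (H * N) := by
  classical
  obtain ⟨C6, hC6, hint⟩ := w_int f hf D
  obtain ⟨N₃, h3⟩ := hint 1 one_pos
  obtain ⟨α, β, hα, hαβ, hβf, e, he, h1⟩ := w3wS f D q hf hq Kf hKf θ hθ1 hθ2 (ε / 4) (by positivity)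
  obtain ⟨A₁, hA₁, hmrt⟩ := mrtU e he
  obtain ⟨A', hA', N₂, hfar⟩ := far_sqrt A₁
  obtain ⟨N₁, h1⟩ := h1 A₁
  obtain ⟨η, hη⟩ : ∃ η, η = min (ε / 8) ((ε / 4) ^ 2 / C6) := ⟨_, rfl⟩
  have hη0 : 0 < η := by rw [hη]; positivity
  have hη1 : η ≤ ε / 8 := by rw [hη]; exact min_le_left _ _
  have hη2 : C6 * η ≤ (ε / 4) ^ 2 := by
    have : η ≤ (ε / 4) ^ 2 / C6 := by rw [hη]; exact min_le_right _ _
    rw [le_div_iff₀ (by linarith)] at this
    linarith
  obtain ⟨N₄, hsq⟩ := sqw f D hf α β hα hαβ hβf η hη0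
  refine ⟨A', N₁ + N₂ + N₃ + N₄ + 1, fun N hN z₀ hz₀ hz₀N hLK F hF hFar H hH a hs ha W hW B hB b hb X hX r => ?_⟩
  obtain ⟨P, hP⟩ : ∃ P, P = WH.PP α β z₀ := ⟨_, rfl⟩
  obtain ⟨F', hF'⟩ : ∃ F', F' = ft F P := ⟨_, rfl⟩
  have hF'm : RMul F' := by rw [hF']; exact ft_rmul hF P
  have hN0 : (0 : ℝ) < N := by exact_mod_cast (by omega : 0 < N)
  have hPp : ∀ p ∈ P, p.Prime := by
    intro p hp
    rw [hP] at hp
    unfold Pool.Agent.H617.WH.PP at hp
    rw [mem_mid] at hp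
    exact hp.2.2
  have hsq := fun t => hsq N (by omega) z₀ (by omega) hz₀N a hs W hW t
  rw [← hP] at hsq
  have hmts : Mts (fc F' (6 * N)) e A₁ (3 * N) := by
    intro M J hM1 hM2 hJ hJM g hg
    have g1 : FarR A₁ M F' := by
      rw [hF']
      apply ft_far hF
      exact hfar N (by omega) F hF.abs hFar M ((Nat.sqrt_le_sqrt (by omega)).trans hM1)
    have g2 := hmrt M J hJ hJM F' hF'm g1 g hg
    refine le_trans (le_of_eq ?_) g2
    apply sum_congr rfl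
    intro j _
    congr 1
    apply sum_congr rfl
    intro m _
    rw [fc_cM F' (6 * N) M (by omega)]
  have hmc : Mc P (4 * N) (fun p => (F p : ℂ)) (fc F' (6 * N)) := by
    refine ⟨fun p _ => ?_, fun p hp m hm hpm => ?_⟩
    · rw [Complex.norm_real, Real.norm_eq_abs]
      exact hF.abs p
    · have hm6 : m ≤ 6 * N := by
        have : m ≤ p * m := Nat.le_mul_of_pos_left m (hPp p hp).pos
        omega
      rw [fc_nat F' (6 * N) (p * m) (Nat.mul_pos (hPp p hp).pos hm) (by omega), fc_nat F' (6 * N) m hm hm6, hF',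
        ft_mc P (hPp p hp) hp hm]
      push_cast
      ring
  have key := h1 N (by omega) z₀ (by omega) hz₀N hLK (fc F' (6 * N)) (fc_gd hF'm.abs _) hmts _ (by rw [← hP]; exact hmc) H hH a hs ha W hW B hB b hb X hX r
  -- the difference of the sums
  have hHr : (0 : ℝ) ≤ H := Nat.cast_nonneg _
  obtain ⟨S, hS⟩ : ∃ S, S = St q r H := ⟨_, rfl⟩
  have hSsub : S ⊆ Icc 1 H := by rw [hS]; exact st_sub q r H
  have hSc : (S.card : ℝ) ≤ H := by
    have := card_le_card hSsub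
    rw [Nat.card_Icc, Nat.add_sub_cancel] at this
    exact_mod_cast this
  have hSc0 : (0 : ℝ) ≤ S.card := Nat.cast_nonneg _
  rw [← hS] at key ⊢
  obtain ⟨sq, hsqd⟩ : ∃ sq : ℕ → ℝ, sq = fun k => ∑ p ∈ P, (if p ^ 2 ∣ k then (1 : ℝ) else 0) := ⟨_, rfl⟩
  have hsq0 : ∀ k, 0 ≤ sq k := by
    intro k
    rw [hsqd]
    apply sum_nonneg
    intro p _
    split_ifs <;> norm_num
  have hIoc : (Icc 1 N : Finset ℕ) = Ioc 0 N := by
    ext n
    rw [mem_Icc, mem_Ioc]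
    omega
  have hsqs : ∀ t, ∑ n ∈ Ioc 0 N, W n * sq (n + t) ≤ η * N := by
    intro t
    rw [← hIoc, hsqd]
    exact hsq t
  have hd1 : ∀ h ∈ S, ‖∑ n ∈ Ioc 0 (X h), b n * (W n : ℂ) * (F (n + (B + h)) : ℂ)‖ ≤
      ‖Sw (fc F' (6 * N)) W b (X h) (B + h)‖ + 2 * (η * N) := by
    intro h hh
    have hh := hSsub hh
    rw [mem_Icc] at hh
    have e1 : ∑ n ∈ Ioc 0 (X h), b n * (W n : ℂ) * (F (n + (B + h)) : ℂ) = Sw (fc F' (6 * N)) W b (X h) (B + h) +
        ∑ n ∈ Ioc 0 (X h), b n * (W n : ℂ) * ((F (n + (B + h)) - F' (n + (B + h)) : ℝ) : ℂ) := by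
      unfold Sw
      rw [← sum_add_distrib]
      apply sum_congr rfl
      intro n hn
      rw [mem_Ioc] at hn
      have := hX h
      rw [fc_nat F' (6 * N) (n + (B + h)) (by omega) (by omega)]
      push_cast
      ring
    rw [e1]
    refine (norm_add_le _ _).trans (add_le_add le_rfl ?_)
    refine (norm_sum_le _ _).trans ?_
    have e2 : ∀ n ∈ Ioc 0 (X h), ‖b n * (W n : ℂ) * ((F (n + (B + h)) - F' (n + (B + h)) : ℝ) : ℂ)‖ ≤ 2 * (W n * sq (n + (B + h))) := by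
      intro n hn
      rw [mem_Ioc] at hn
      rw [norm_mul, norm_mul, Complex.norm_real, Complex.norm_real, Real.norm_eq_abs, Real.norm_eq_abs, abs_of_nonneg (hW.nn n)]
      have g1 : |F (n + (B + h)) - F' (n + (B + h))| ≤ 2 * sq (n + (B + h)) := by
        rw [hF', hsqd]
        exact ft_diff hF P (by omega)
      calc ‖b n‖ * W n * |F (n + (B + h)) - F' (n + (B + h))| ≤ 1 * W n * (2 * sq (n + (B + h))) := by
            apply mul_le_mul _ g1 (abs_nonneg _) (by have := hW.nn n; linarith)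
            exact mul_le_mul_of_nonneg_right (hb n) (hW.nn n)
        _ = _ := by ring
    refine (sum_le_sum e2).trans ?_
    rw [← mul_sum]
    apply mul_le_mul_of_nonneg_left _ (by norm_num)
    refine le_trans ?_ (hsqs (B + h))
    apply sum_le_sum_of_subset_of_nonneg
    · exact Ioc_subset_Ioc_right (hX h)
    · intro n _ _
      exact mul_nonneg (hW.nn n) (hsq0 _)
  have hd2 := sum_le_sum hd1
  rw [sum_add_distrib, sum_const, nsmul_eq_mul] at hd2
  -- the mean squares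
  obtain ⟨Q, hQ⟩ : ∃ Q, Q = ∑ h ∈ S, ∑ n ∈ Ioc 0 N, W n * F (n + (B + h)) ^ 2 := ⟨_, rfl⟩
  have hQ0 : 0 ≤ Q := by
    rw [hQ]
    exact sum_nonneg fun h _ => sum_nonneg fun n _ => mul_nonneg (hW.nn n) (sq_nonneg _)
  have hQw : Qs (fc F' (6 * N)) W N B S ≤ Q + H * (η * N) := by
    have g1 : ∀ h ∈ S, ∑ n ∈ Ioc 0 N, W n * ‖fc F' (6 * N) ((n + (B + h) : ℕ) : ℤ)‖ ^ 2 ≤
        ∑ n ∈ Ioc 0 N, W n * F (n + (B + h)) ^ 2 + η * N := by
      intro h hh
      have hh := hSsub hh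
      rw [mem_Icc] at hh
      refine le_trans ?_ (add_le_add le_rfl (hsqs (B + h)))
      rw [← sum_add_distrib]
      apply sum_le_sum
      intro n hn
      rw [mem_Ioc] at hn
      rw [fc_nat F' (6 * N) (n + (B + h)) (by omega) (by omega), Complex.norm_real, Real.norm_eq_abs, sq_abs, ← mul_add]
      apply mul_le_mul_of_nonneg_left _ (hW.nn n)
      rw [hF', hsqd]
      exact ft_sq hF P (by omega)
    unfold Qs
    refine (sum_le_sum g1).trans ?_
    rw [sum_add_distrib, sum_const, nsmul_eq_mul, hQ]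
    exact add_le_add le_rfl (mul_le_mul_of_nonneg_right hSc (by positivity))
  have hT0 := Tw_nonneg hW.nn N
  have hTN : Tw W N ≤ C6 * N := by
    have g1 := h3 N (by omega) z₀ (by omega) hz₀N N 0 (by rw [one_mul]) le_rfl a hs W hW
    rw [zero_add] at g1
    exact g1
  have hTw : ∑ n ∈ Ioc 0 N, W n = Tw W N := rfl
  rw [hTw, ← hQ]
  obtain ⟨G, hG⟩ : ∃ G, G = S.card * Tw W N := ⟨_, rfl⟩
  rw [← hG] at key ⊢
  have hG0 : 0 ≤ G := by rw [hG]; positivity
  have hGle : G ≤ H * (C6 * N) := by rw [hG]; exact mul_le_mul hSc hTN hT0 hHr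
  have hk0 := kap_nonneg θ
  have hk1 := kap_le_one θ hθ1 hθ2
  have hsqrt : √(G * Qs (fc F' (6 * N)) W N B S) ≤ √(G * Q) + ε / 4 * (H * N) := by
    have g1 : G * Qs (fc F' (6 * N)) W N B S ≤ G * Q + (ε / 4 * (H * N)) ^ 2 := by
      calc G * Qs (fc F' (6 * N)) W N B S ≤ G * (Q + H * (η * N)) := mul_le_mul_of_nonneg_left hQw hG0
        _ = G * Q + G * (H * (η * N)) := by ring
        _ ≤ G * Q + (H * (C6 * N)) * (H * (η * N)) := by
            have := mul_le_mul_of_nonneg_right hGle (show 0 ≤ H * (η * N) by positivity)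
            linarith
        _ = G * Q + (C6 * η) * (H * N) ^ 2 := by ring
        _ ≤ G * Q + (ε / 4) ^ 2 * (H * N) ^ 2 := by
            have := mul_le_mul_of_nonneg_right hη2 (sq_nonneg ((H : ℝ) * N))
            linarith
        _ = _ := by ring
    refine (Real.sqrt_le_sqrt g1).trans ?_
    have hx : 0 ≤ G * Q := by positivity
    have hy : 0 ≤ ε / 4 * (H * N) := by positivity
    rw [Real.sqrt_le_left (by positivity)]
    have e1 := Real.sq_sqrt hx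
    have e2 : 0 ≤ √(G * Q) * (ε / 4 * (H * N)) := by positivity
    nlinarith
  have g2 := mul_le_mul_of_nonneg_left hsqrt hk0
  have g3 : kap θ * (ε / 4 * (H * N)) ≤ ε / 4 * (H * N) := mul_le_of_le_one_left (by positivity) hk1
  have g4 : (S.card : ℝ) * (2 * (η * N)) ≤ ε / 4 * (H * N) := by
    calc (S.card : ℝ) * (2 * (η * N)) ≤ H * (2 * (η * N)) := mul_le_mul_of_nonneg_right hSc (by positivity)
      _ = (2 * η) * (H * N) := by ring
      _ ≤ (ε / 4) * (H * N) := by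
          apply mul_le_mul_of_nonneg_right _ (by positivity)
          linarith
  have g5 : 0 ≤ ε * (H * N) := by positivity
  linarith

end Pool.Agent.H617.WQ
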