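import Mathlib
import Pool.Agent.H617.WQ.E

set_option autoImplicit false

/-! Sums `p + m` of a prime and an integer: the Liouville function at `M - p`, for the `M` of a progression in a window. -/

namespace Pool.Agent.H617.WQ
open Finset Filter Topology
open Pool.Agent.H373R2.T7 (Vz Vz_pos pz mem_pz exI liR)
open Pool.Agent.E8helper16.SL
open Pool.Agent.H617.WH
open Pool.Agent.H617.WK
open Pool.Agent.H617.WN

/-- the sum over the primes below `M` -/
noncomputable def sgd (b : ℕ → ℂ) (M : ℕ) : ℂ :=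
  ∑ p ∈ (range M).filter Nat.Prime, b p * (Real.log p : ℂ) * (-1 : ℂ) ^ (ArithmeticFunction.cardFactors (M - p))

/-- the trivial bound -/
noncomputable def ttl (b : ℕ → ℂ) (M : ℕ) : ℝ := ∑ p ∈ (range M).filter Nat.Prime, ‖b p‖ * Real.log p

lemma ttl_nonneg (b : ℕ → ℂ) (M : ℕ) : 0 ≤ ttl b M :=
  sum_nonneg fun p _ => mul_nonneg (norm_nonneg _) (Real.log_natCast_nonneg p)

lemma reflect {β : Type*} [AddCommMonoid β] (M₀ N : ℕ) (h : M₀ ≤ N) (u : ℕ → β) :
    ∑ n ∈ Ioc 0 N, (if n < M₀ then u (M₀ - n) else 0) = ∑ p ∈ Ioo 0 M₀, u p := by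
  rw [← sum_filter]
  apply sum_nbij' (fun n => M₀ - n) (fun p => M₀ - p)
  · intro n hn
    rw [mem_filter, mem_Ioc] at hn
    rw [mem_Ioo]
    omega
  · intro p hp
    rw [mem_Ioo] at hp
    rw [mem_filter, mem_Ioc]
    omega
  · intro n hn
    rw [mem_filter, mem_Ioc] at hn
    omega
  · intro p hp
    rw [mem_Ioo] at hp
    omega
  · intro n _
    rfl

open Classical in
/-- the weight -/
noncomputable def wg (b : ℕ → ℂ) (z M₀ n : ℕ) : ℝ :=
  if n < M₀ then (if (M₀ - n).Prime ∧ z < M₀ - n then ‖b (M₀ - n)‖ * Real.log ((M₀ - n : ℕ) : ℝ) / 3 else 0) else 0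

/-- the phases -/
noncomputable def ph (b : ℕ → ℂ) (M₀ n : ℕ) : ℂ := b (M₀ - n) / (‖b (M₀ - n)‖ : ℂ)

lemma ph_le (b : ℕ → ℂ) (M₀ n : ℕ) : ‖ph b M₀ n‖ ≤ 1 := by
  unfold ph
  rw [norm_div, Complex.norm_real, norm_norm]
  exact div_self_le_one _

lemma ph_mul (b : ℕ → ℂ) (M₀ n : ℕ) : ph b M₀ n * (‖b (M₀ - n)‖ : ℂ) = b (M₀ - n) := by
  unfold ph
  by_cases h0 : b (M₀ - n) = 0
  · rw [h0]
    simp
  · have : (‖b (M₀ - n)‖ : ℂ) ≠ 0 := by
      rw [Ne, Complex.ofReal_eq_zero, norm_eq_zero]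
      exact h0
    field_simp

lemma wt_wg {b : ℕ → ℂ} (hb : ∀ p, ‖b p‖ ≤ 1) {z M₀ N : ℕ} (hM : M₀ ≤ N) (hz : Real.log N / 3 ≤ Real.log z) :
    Wt (fun _ : Fin 1 => -(M₀ : ℤ)) z (wg b z M₀) where
  nn := by
    intro n
    unfold wg
    split_ifs
    · have := Real.log_natCast_nonneg (M₀ - n)
      positivity
    · exact le_rfl
    · exact le_rfl
  le := by
    intro n
    rw [pow_one]
    have h0 := Real.log_natCast_nonneg z
    unfold wg
    split_ifs with h1 h2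
    · refine le_trans ?_ hz
      have h3 : Real.log ((M₀ - n : ℕ) : ℝ) ≤ Real.log N := by
        apply Real.log_le_log
        · exact_mod_cast h2.1.pos
        · exact_mod_cast (by omega : M₀ - n ≤ N)
      have h4 := Real.log_natCast_nonneg (M₀ - n)
      have h5 : ‖b (M₀ - n)‖ * Real.log ((M₀ - n : ℕ) : ℝ) ≤ 1 * Real.log N := mul_le_mul (hb _) h3 h4 (by norm_num)
      linarith
    · exact h0
    · exact h0
  sup := by
    intro n hn
    unfold wg at hn
    split_ifs at hn with h1 h2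
    · intro l hl i hd
      rw [mem_pz] at hl
      have e : (n : ℤ) + (fun _ : Fin 1 => -(M₀ : ℤ)) i = -((M₀ - n : ℕ) : ℤ) := by
        simp only
        rw [Nat.cast_sub h1.le]
        ring
      rw [e, Int.dvd_neg] at hd
      have hd' : l ∣ M₀ - n := by exact_mod_cast hd
      have := (Nat.prime_dvd_prime_iff_eq hl.2 h2.1).1 hd'
      omega
    · exact absurd rfl hn
    · exact absurd rfl hn

/-- the sum of the weights -/
lemma tw_wg (b : ℕ → ℂ) (z M₀ N M : ℕ) (h : M₀ ≤ N) (hM : M₀ ≤ M) : 3 * Tw (wg b z M₀) N ≤ ttl b M := by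
  classical
  have e1 : Tw (wg b z M₀) N = ∑ p ∈ Ioo 0 M₀, (if p.Prime ∧ z < p then ‖b p‖ * Real.log (p : ℝ) / 3 else 0) := by
    unfold Tw wg
    exact reflect M₀ N h (fun p => if p.Prime ∧ z < p then ‖b p‖ * Real.log (p : ℝ) / 3 else 0)
  rw [e1]
  unfold ttl
  rw [mul_sum, sum_filter]
  have h1 : Ioo 0 M₀ ⊆ range M := by
    intro p hp
    rw [mem_Ioo] at hp
    rw [mem_range]
    omega
  refine le_trans ?_ (sum_le_sum_of_subset_of_nonneg h1 ?_)
  · apply sum_le_sum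
    intro p _
    have h0 := Real.log_natCast_nonneg p
    by_cases h2 : p.Prime
    · by_cases h3 : z < p
      · rw [if_pos ⟨h2, h3⟩, if_pos h2]
        apply le_of_eq
        ring
      · rw [if_neg (fun q => h3 q.2), if_pos h2, mul_zero]
        positivity
    · rw [if_neg (fun q => h2 q.1), if_neg h2, mul_zero]
  · intro p _ _
    have h0 := Real.log_natCast_nonneg p
    split_ifs
    · positivity
    · exact le_rfl

/-- the sum in terms of the weights -/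
lemma sgd_le {b : ℕ → ℂ} (hb : ∀ p, ‖b p‖ ≤ 1) (z M₀ N h : ℕ) (hM : M₀ + h ≤ N) :
    ‖sgd b (M₀ + h)‖ ≤ 3 * ‖Sw (exI liR) (wg b z M₀) (ph b M₀) N (0 + h)‖ + (z + 1 + h) * Real.log N := by
  classical
  have hN0 := Real.log_natCast_nonneg N
  have e1 : 3 * Sw (exI liR) (wg b z M₀) (ph b M₀) N (0 + h) =
      ∑ p ∈ Ioo 0 M₀, (if p.Prime ∧ z < p then b p * (Real.log p : ℂ) * (-1 : ℂ) ^ (ArithmeticFunction.cardFactors (M₀ + h - p)) else 0) := by
    rw [← reflect M₀ N (by omega) (fun p => if p.Prime ∧ z < p then b p * (Real.log p : ℂ) * (-1 : ℂ) ^ (ArithmeticFunction.cardFactors (M₀ + h - p)) else 0)]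
    unfold Sw
    rw [mul_sum]
    apply sum_congr rfl
    intro n hn
    rw [mem_Ioc] at hn
    unfold wg
    split_ifs with h1 h2
    · have e2 : M₀ + h - (M₀ - n) = n + (0 + h) := by omega
      have e3 : exI liR ((n + (0 + h) : ℕ) : ℤ) = (-1 : ℂ) ^ (ArithmeticFunction.cardFactors (n + (0 + h))) :=
        lz_nat (n + (0 + h)) (by omega)
      have e5 : ((‖b (M₀ - n)‖ * Real.log ((M₀ - n : ℕ) : ℝ) / 3 : ℝ) : ℂ) = (‖b (M₀ - n)‖ : ℂ) * (Real.log ((M₀ - n : ℕ) : ℝ) : ℂ) / 3 := by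
        rw [Complex.ofReal_div, Complex.ofReal_mul, Complex.ofReal_ofNat]
      rw [e2, e3, e5]
      calc 3 * (ph b M₀ n * ((‖b (M₀ - n)‖ : ℂ) * (Real.log ((M₀ - n : ℕ) : ℝ) : ℂ) / 3) * (-1 : ℂ) ^ (ArithmeticFunction.cardFactors (n + (0 + h)))) =
            (ph b M₀ n * (‖b (M₀ - n)‖ : ℂ)) * (Real.log ((M₀ - n : ℕ) : ℝ) : ℂ) * (-1 : ℂ) ^ (ArithmeticFunction.cardFactors (n + (0 + h))) := by ring
        _ = _ := by rw [ph_mul]
    · simp
    · simp
  have e2 : sgd b (M₀ + h) = 3 * Sw (exI liR) (wg b z M₀) (ph b M₀) N (0 + h) +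
      ∑ p ∈ range (M₀ + h), (if p.Prime ∧ (p ≤ z ∨ M₀ ≤ p) then b p * (Real.log p : ℂ) * (-1 : ℂ) ^ (ArithmeticFunction.cardFactors (M₀ + h - p)) else 0) := by
    rw [e1]
    have e3 : ∑ p ∈ Ioo 0 M₀, (if p.Prime ∧ z < p then b p * (Real.log p : ℂ) * (-1 : ℂ) ^ (ArithmeticFunction.cardFactors (M₀ + h - p)) else 0) =
        ∑ p ∈ range (M₀ + h), (if p.Prime ∧ z < p ∧ p < M₀ then b p * (Real.log p : ℂ) * (-1 : ℂ) ^ (ArithmeticFunction.cardFactors (M₀ + h - p)) else 0) := by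
      have hsub : Ioo 0 M₀ ⊆ range (M₀ + h) := by
        intro p hp
        rw [mem_Ioo] at hp
        rw [mem_range]
        omega
      rw [← sum_subset hsub]
      · apply sum_congr rfl
        intro p hp
        rw [mem_Ioo] at hp
        by_cases h2 : p.Prime ∧ z < p
        · rw [if_pos h2, if_pos ⟨h2.1, h2.2, hp.2⟩]
        · rw [if_neg h2, if_neg (fun q => h2 ⟨q.1, q.2.1⟩)]
      · intro p _ hp
        rw [mem_Ioo] at hp
        rw [if_neg]
        rintro ⟨h1, h2, h3⟩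
        exact hp ⟨h1.pos, h3⟩
    rw [e3, ← sum_add_distrib]
    unfold sgd
    rw [sum_filter]
    apply sum_congr rfl
    intro p _
    by_cases h1 : p.Prime
    · by_cases h2 : z < p ∧ p < M₀
      · rw [if_pos h1, if_pos ⟨h1, h2⟩, if_neg (fun q => by rcases q.2 with q | q <;> omega), add_zero]
      · rw [if_pos h1, if_neg (fun q => h2 q.2), if_pos ⟨h1, by
          by_contra hc
          push Not at hc
          exact h2 ⟨hc.1, hc.2⟩⟩, zero_add]
    · rw [if_neg h1, if_neg (fun q => h1 q.1), if_neg (fun q => h1 q.1), add_zero]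
  rw [e2]
  refine (norm_add_le _ _).trans ?_
  have e4 : ‖3 * Sw (exI liR) (wg b z M₀) (ph b M₀) N (0 + h)‖ = 3 * ‖Sw (exI liR) (wg b z M₀) (ph b M₀) N (0 + h)‖ := by
    rw [norm_mul]
    norm_num
  rw [e4]
  apply add_le_add le_rfl
  refine (norm_sum_le _ _).trans ?_
  have h1 : ∀ p ∈ range (M₀ + h), ‖(if p.Prime ∧ (p ≤ z ∨ M₀ ≤ p) then b p * (Real.log p : ℂ) * (-1 : ℂ) ^ (ArithmeticFunction.cardFactors (M₀ + h - p)) else 0)‖ ≤
      (if p ≤ z ∨ M₀ ≤ p then Real.log N else 0) := by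
    intro p hp
    rw [mem_range] at hp
    by_cases h2 : p.Prime ∧ (p ≤ z ∨ M₀ ≤ p)
    · rw [if_pos h2, if_pos h2.2, norm_mul, norm_mul, norm_pow, norm_neg, norm_one, one_pow, mul_one, Complex.norm_real, Real.norm_eq_abs,
        abs_of_nonneg (Real.log_natCast_nonneg p)]
      have h3 : Real.log p ≤ Real.log N := by
        apply Real.log_le_log
        · exact_mod_cast h2.1.pos
        · exact_mod_cast (by omega : p ≤ N)
      calc ‖b p‖ * Real.log p ≤ 1 * Real.log N := mul_le_mul (hb p) h3 (Real.log_natCast_nonneg p) (by norm_num)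
        _ = _ := one_mul _
    · rw [if_neg h2, norm_zero]
      split_ifs
      · exact hN0
      · exact le_rfl
  refine (sum_le_sum h1).trans ?_
  rw [← sum_filter, sum_const, nsmul_eq_mul]
  apply mul_le_mul_of_nonneg_right _ hN0
  have h2 : (range (M₀ + h)).filter (fun p => p ≤ z ∨ M₀ ≤ p) ⊆ range (z + 1) ∪ Ico M₀ (M₀ + h) := by
    intro p hp
    rw [mem_filter, mem_range] at hp
    rw [mem_union, mem_range, mem_Ico]
    omega
  have h3 := (card_le_card h2).trans (card_union_le _ _)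
  rw [card_range, Nat.card_Ico, Nat.add_sub_cancel_left] at h3
  exact_mod_cast h3

lemma small_err (ε : ℝ) (hε : 0 < ε) : ∀ᶠ N : ℕ in atTop, ((Nat.sqrt N : ℕ) + 1 + Real.log N ^ 2) * Real.log N ≤ ε * N := by
  have h1 : ∀ᶠ N : ℕ in atTop, Real.log N ≤ (N : ℝ) ^ (1 / 8 : ℝ) := by
    have g1 := (isLittleO_log_rpow_atTop (show (0 : ℝ) < 1 / 8 by norm_num)).bound (show (0 : ℝ) < 1 by norm_num)
    have g2 := tendsto_natCast_atTop_atTop (R := ℝ) |>.eventually g1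
    filter_upwards [g2, eventually_ge_atTop 1] with N h2 h3
    rw [Real.norm_eq_abs, Real.norm_eq_abs, one_mul] at h2
    exact (le_abs_self _).trans (h2.trans (le_of_eq (abs_of_nonneg (by positivity))))
  have h2 : Tendsto (fun N : ℕ => (N : ℝ) ^ (1 / 4 : ℝ)) atTop atTop :=
    (tendsto_rpow_atTop (by norm_num)).comp tendsto_natCast_atTop_atTop
  filter_upwards [h1, h2.eventually_ge_atTop (3 / ε), eventually_ge_atTop 1] with N g1 g2 g3
  have hN1 : (1 : ℝ) ≤ N := by exact_mod_cast g3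
  have hN0 : (0 : ℝ) < N := by linarith
  have hl0 := Real.log_natCast_nonneg N
  have e1 : (Nat.sqrt N : ℝ) ≤ (N : ℝ) ^ (1 / 2 : ℝ) := by
    rw [← Real.sqrt_eq_rpow]
    exact Real.nat_sqrt_le_real_sqrt
  have e2 : Real.log N ^ 2 ≤ (N : ℝ) ^ (1 / 2 : ℝ) := by
    calc Real.log N ^ 2 ≤ ((N : ℝ) ^ (1 / 8 : ℝ)) ^ 2 := pow_le_pow_left₀ hl0 g1 2
      _ = (N : ℝ) ^ (1 / 4 : ℝ) := by
          rw [← Real.rpow_natCast, ← Real.rpow_mul hN0.le]
          norm_num
      _ ≤ _ := Real.rpow_le_rpow_of_exponent_le hN1 (by norm_num)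
  have e3 : (1 : ℝ) ≤ (N : ℝ) ^ (1 / 2 : ℝ) := Real.one_le_rpow hN1 (by norm_num)
  calc ((Nat.sqrt N : ℕ) + 1 + Real.log N ^ 2) * Real.log N ≤ (3 * (N : ℝ) ^ (1 / 2 : ℝ)) * (N : ℝ) ^ (1 / 4 : ℝ) := by
        apply mul_le_mul _ _ hl0 (by positivity)
        · linarith
        · exact g1.trans (Real.rpow_le_rpow_of_exponent_le hN1 (by norm_num))
    _ ≤ (ε * (N : ℝ) ^ (1 / 4 : ℝ)) * (N : ℝ) ^ (1 / 2 : ℝ) * (N : ℝ) ^ (1 / 4 : ℝ) := by
        apply mul_le_mul_of_nonneg_right _ (by positivity)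
        apply mul_le_mul_of_nonneg_right _ (by positivity)
        rw [div_le_iff₀ hε] at g2
        linarith
    _ = ε * N := by
        have : (N : ℝ) ^ (1 / 4 : ℝ) * (N : ℝ) ^ (1 / 2 : ℝ) * (N : ℝ) ^ (1 / 4 : ℝ) = N := by
          rw [← Real.rpow_add hN0, ← Real.rpow_add hN0]
          norm_num
        calc _ = ε * ((N : ℝ) ^ (1 / 4 : ℝ) * (N : ℝ) ^ (1 / 2 : ℝ) * (N : ℝ) ^ (1 / 4 : ℝ)) := by ring
          _ = _ := by rw [this]

lemma log_sqrt : ∀ᶠ N : ℕ in atTop, Real.log N / 3 ≤ Real.log (Nat.sqrt N : ℕ) := by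
  filter_upwards [eventually_ge_atTop 64] with N hN
  have h1 : N < (Nat.sqrt N + 1) * (Nat.sqrt N + 1) := Nat.lt_succ_sqrt N
  have h2 : 8 ≤ Nat.sqrt N := by rw [Nat.le_sqrt]; omega
  have h3 : N ≤ Nat.sqrt N ^ 3 := by nlinarith
  have h4 : Real.log N ≤ Real.log ((Nat.sqrt N : ℕ) ^ 3 : ℝ) := by
    apply Real.log_le_log
    · exact_mod_cast (by omega : 0 < N)
    · exact_mod_cast h3
  rw [Real.log_pow] at h4
  push_cast at h4
  linarith

lemma loglog_small (K : ℕ) : ∀ᶠ N : ℕ in atTop, Real.log (Real.log (3 * N : ℕ)) ^ K ≤ Real.log N / 3 := by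
  have h1 : Tendsto (fun N : ℕ => Real.log ((3 * N : ℕ) : ℝ)) atTop atTop := by
    apply Real.tendsto_log_atTop.comp
    apply tendsto_natCast_atTop_atTop.comp
    exact tendsto_id.const_mul_atTop' (by norm_num)
  have g1 := (isLittleO_log_rpow_atTop (show (0 : ℝ) < 1 / (K + 1) by positivity)).bound (show (0 : ℝ) < 1 by norm_num)
  have g2 := h1.eventually g1
  filter_upwards [g2, h1.eventually_ge_atTop (12 ^ (K + 1)), eventually_ge_atTop 3] with N h2 h3 h4
  obtain ⟨x, hx⟩ : ∃ x, x = Real.log ((3 * N : ℕ) : ℝ) := ⟨_, rfl⟩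
  rw [← hx] at h2 h3 ⊢
  have h12 : (1 : ℝ) ≤ 12 ^ (K + 1) := one_le_pow₀ (by norm_num)
  have hx1 : 1 ≤ x := by linarith
  have hx0 : 0 < x := by linarith
  rw [Real.norm_eq_abs, Real.norm_eq_abs, one_mul, abs_of_nonneg (Real.log_nonneg hx1), abs_of_nonneg (by positivity)] at h2
  have h5 : Real.log x ^ K ≤ (x ^ (1 / ((K : ℝ) + 1))) ^ K := pow_le_pow_left₀ (Real.log_nonneg hx1) h2 K
  have h6 : x = (x ^ (1 / ((K : ℝ) + 1))) ^ K * x ^ (1 / ((K : ℝ) + 1)) := by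
    rw [← pow_succ, ← Real.rpow_natCast, ← Real.rpow_mul hx0.le]
    push_cast
    rw [one_div, inv_mul_cancel₀ (by positivity), Real.rpow_one]
  have h7 : (12 : ℝ) ≤ x ^ (1 / ((K : ℝ) + 1)) := by
    have : (12 : ℝ) = ((12 : ℝ) ^ (K + 1)) ^ (1 / ((K : ℝ) + 1)) := by
      rw [← Real.rpow_natCast, ← Real.rpow_mul (by norm_num)]
      push_cast
      rw [mul_one_div, div_self (by positivity), Real.rpow_one]
    rw [this]
    exact Real.rpow_le_rpow (by positivity) h3 (by positivity)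
  have h8 : 12 * Real.log x ^ K ≤ x := by
    have y0 : 0 ≤ (x ^ (1 / ((K : ℝ) + 1))) ^ K := by positivity
    calc 12 * Real.log x ^ K ≤ 12 * (x ^ (1 / ((K : ℝ) + 1))) ^ K := by linarith
      _ ≤ x ^ (1 / ((K : ℝ) + 1)) * (x ^ (1 / ((K : ℝ) + 1))) ^ K := mul_le_mul_of_nonneg_right h7 y0
      _ = x := by rw [mul_comm]; exact h6.symm
  have h9 : x ≤ 2 * Real.log N := by
    rw [hx]
    push_cast
    have hN3 : (3 : ℝ) ≤ N := by exact_mod_cast h4
    rw [Real.log_mul (by norm_num) (by linarith)]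
    have := Real.log_le_log (by norm_num) hN3
    linarith
  linarith

end Pool.Agent.H617.WQ
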