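import Mathlib
import Pool.Agent.H617.WQ.G

set_option autoImplicit false

/-! Sums `p + m` of a prime and an integer: the theorem for all the windows. -/

namespace Pool.Agent.H617.WQ
open Finset Filter Topology
open Pool.Agent.H373R2.T7 (Vz Vz_pos pz mem_pz exI liR)
open Pool.Agent.E8helper16.SL
open Pool.Agent.H617.WH
open Pool.Agent.H617.WK
open Pool.Agent.H617.WN

theorem gold0 (q : ℕ) (hq : 1 ≤ q) (θ : ℝ) (hθ1 : 1 / 2 < θ) (hθ2 : θ < 1) (ε : ℝ) (hε : 0 < ε) :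
    ∃ N₀ : ℕ, ∀ N : ℕ, N₀ ≤ N → ∀ H : ℕ, Real.log N ^ θ ≤ H → (H : ℝ) ≤ Real.log N ^ 2 → ∀ M₀ : ℕ, M₀ + H ≤ N →
      ∀ b : ℕ → ℂ, (∀ p, ‖b p‖ ≤ 1) → ∀ r : ℕ,
      ∑ h ∈ St q r H, ‖sgd b (M₀ + h)‖ ≤ kap θ * ∑ h ∈ St q r H, ttl b (M₀ + h) + ε * (H * N) := by
  classical
  obtain ⟨K, hK1, hK⟩ := kf_ex 1 le_rfl
  obtain ⟨α, β, hα, hαβ, hβ, e, he, h1⟩ := w3wS 1 0 q le_rfl hq K hK θ hθ1 hθ2 (ε / 6) (by positivity)
  obtain ⟨J₀, M₁, hmrt⟩ := gd_lam.mrt e he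
  obtain ⟨N₁, h1⟩ := h1 J₀
  obtain ⟨N₂, h2⟩ := eventually_atTop.1 ((small_err (ε / 2) (by positivity)).and (log_sqrt.and (loglog_small K)))
  refine ⟨N₁ ^ 2 + N₁ + N₂ + M₁ ^ 2 + 4, fun N hN H hH1 hH2 M₀ hM b hb r => ?_⟩
  obtain ⟨e1, e2, e3⟩ := h2 N (by omega)
  obtain ⟨z, hz⟩ : ∃ z, z = Nat.sqrt N := ⟨_, rfl⟩
  rw [← hz] at e1 e2
  have hz1 : N₁ ≤ z := by
    rw [hz, Nat.le_sqrt]
    have : N₁ ^ 2 = N₁ * N₁ := by ring
    omega
  have hz2 : 2 ≤ z := by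
    rw [hz, Nat.le_sqrt]
    omega
  have hzN : z ≤ N := by rw [hz]; exact Nat.sqrt_le_self N
  have hN0 : (0 : ℝ) < N := by exact_mod_cast (by omega : 0 < N)
  have hlogz : Real.log z ≤ Real.log N := by
    apply Real.log_le_log
    · exact_mod_cast (by omega : 0 < z)
    · exact_mod_cast hzN
  have hlogz0 : 0 ≤ Real.log z := Real.log_natCast_nonneg z
  have hlogN0 : 0 ≤ Real.log N := Real.log_natCast_nonneg N
  have hmts : Mts (exI liR) e J₀ (3 * N) := by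
    intro M J hM1 hM2 hJ hJM g hg
    apply hmrt M J _ hJ hJM g hg
    refine le_trans ?_ hM1
    rw [Nat.le_sqrt]
    have : M₁ ^ 2 = M₁ * M₁ := by ring
    omega
  have hmc : Mc (WH.PP α β z) (4 * N) (fun _ => -1) (exI liR) := by
    refine ⟨fun p _ => by simp, fun p hp m hm _ => ?_⟩
    have hpp : p.Prime := by
      unfold Pool.Agent.H617.WH.PP at hp
      rw [mem_mid] at hp
      exact hp.2.2
    rw [neg_one_mul]
    exact lz_mul hpp hm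
  have hsep : Sep (fun _ : Fin 1 => -(M₀ : ℤ)) 0 := by
    intro i j hij
    exact absurd (Subsingleton.elim i j) hij
  have hHl : Real.log z ^ (((1 : ℕ) : ℝ) * θ) ≤ H := by
    rw [Nat.cast_one, one_mul]
    exact (Real.rpow_le_rpow hlogz0 hlogz (by linarith)).trans hH1
  have key := h1 N (by omega) z hz1 hzN (e3.trans e2) (exI liR) gd_lam hmts _ hmc H hHl _ hsep
    (by intro i; rw [abs_neg, abs_of_nonneg (by positivity)]; omega) _
    (wt_wg hb (show M₀ ≤ N by omega) e2) 0 (by omega) (ph b M₀) (ph_le b M₀) (fun _ => N) (fun _ => le_rfl) r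
  obtain ⟨S, hS⟩ : ∃ S, S = St q r H := ⟨_, rfl⟩
  have hSsub : S ⊆ Icc 1 H := by rw [hS]; exact st_sub q r H
  have hSc : (S.card : ℝ) ≤ H := by
    have := card_le_card hSsub
    rw [Nat.card_Icc, Nat.add_sub_cancel] at this
    exact_mod_cast this
  have hSc0 : (0 : ℝ) ≤ S.card := Nat.cast_nonneg _
  have hH0 : (0 : ℝ) ≤ H := Nat.cast_nonneg _
  rw [← hS] at key ⊢
  have hnn : ∀ n, 0 ≤ wg b z M₀ n := (wt_wg hb (show M₀ ≤ N by omega) e2).nn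
  obtain ⟨T, hT⟩ : ∃ T, T = Tw (wg b z M₀) N := ⟨_, rfl⟩
  have hT0 : 0 ≤ T := by rw [hT]; exact Tw_nonneg hnn N
  have hQ : Qs (exI liR) (wg b z M₀) N 0 S ≤ S.card * T := by rw [hT]; exact Qs_le gd_lam.nrm hnn N 0 S
  rw [← hT] at key
  have hsq : √((S.card * T) * Qs (exI liR) (wg b z M₀) N 0 S) ≤ S.card * T := by
    rw [Real.sqrt_le_left (by positivity)]
    calc (S.card * T) * Qs (exI liR) (wg b z M₀) N 0 S ≤ (S.card * T) * (S.card * T) := mul_le_mul_of_nonneg_left hQ (by positivity)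
      _ = _ := by ring
  have hk0 := kap_nonneg θ
  have h3 : ∀ h ∈ S, ‖sgd b (M₀ + h)‖ ≤ 3 * ‖Sw (exI liR) (wg b z M₀) (ph b M₀) N (0 + h)‖ + ε / 2 * N := by
    intro h hh
    have hh' := hSsub hh
    rw [mem_Icc] at hh'
    refine (sgd_le hb z M₀ N h (by omega)).trans (add_le_add le_rfl ?_)
    refine le_trans ?_ e1
    apply mul_le_mul_of_nonneg_right _ hlogN0
    have : (h : ℝ) ≤ H := by exact_mod_cast hh'.2
    linarith
  have h4 := sum_le_sum h3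
  rw [sum_add_distrib, ← mul_sum, sum_const, nsmul_eq_mul] at h4
  have h5 : 3 * (S.card * T) ≤ ∑ h ∈ S, ttl b (M₀ + h) := by
    have : ∀ h ∈ S, 3 * T ≤ ttl b (M₀ + h) := by
      intro h _
      rw [hT]
      exact tw_wg b z M₀ N (M₀ + h) (by omega) (by omega)
    have g := sum_le_sum this
    rw [sum_const, nsmul_eq_mul] at g
    linarith
  have h6 : (S.card : ℝ) * (ε / 2 * N) ≤ ε / 2 * (H * N) := by
    calc (S.card : ℝ) * (ε / 2 * N) ≤ H * (ε / 2 * N) := mul_le_mul_of_nonneg_right hSc (by positivity)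
      _ = _ := by ring
  have h7 := mul_le_mul_of_nonneg_left hsq hk0
  have h8 := mul_le_mul_of_nonneg_left h5 hk0
  linarith

theorem gold (q : ℕ) (hq : 1 ≤ q) (θ : ℝ) (hθ1 : 1 / 2 < θ) (hθ2 : θ < 1) (ε : ℝ) (hε : 0 < ε) :
    ∃ N₀ : ℕ, ∀ N : ℕ, N₀ ≤ N → ∀ b : ℕ → ℂ, (∀ p, ‖b p‖ ≤ 1) → ∀ H : ℕ, Real.log N ^ θ ≤ H → ∀ M₀ : ℕ, M₀ + H ≤ N → ∀ r : ℕ,
      ∑ h ∈ St q r H, ‖sgd b (M₀ + h)‖ ≤ kap θ * ∑ h ∈ St q r H, ttl b (M₀ + h) + ε * (H * N) := by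
  obtain ⟨N₁, h1⟩ := gold0 q hq θ hθ1 hθ2 ε hε
  obtain ⟨N₂, h2⟩ := eventually_atTop.1 (log_tendsto.eventually_ge_atTop 4)
  refine ⟨N₁ + N₂, fun N hN b hb H₁ hH₁ M₁ hM₁ r₁ => ?_⟩
  have hL4 : 4 ≤ Real.log N := h2 N (by omega)
  obtain ⟨L, hL⟩ : ∃ L, L = Real.log N := ⟨_, rfl⟩
  rw [← hL] at hL4 hH₁
  have hL0 : 0 < L := by linarith
  obtain ⟨y, hy⟩ : ∃ y, y = L ^ θ := ⟨_, rfl⟩
  rw [← hy] at hH₁
  have hy0 : 0 < y := by rw [hy]; positivity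
  have hyL : y ≤ L := by
    rw [hy]
    calc L ^ θ ≤ L ^ (1 : ℝ) := Real.rpow_le_rpow_of_exponent_le (by linarith) hθ2.le
      _ = L := Real.rpow_one L
  have hLL : 4 * L ≤ L ^ 2 := by nlinarith
  obtain ⟨G, hG⟩ : ∃ G, G = ⌈y⌉₊ := ⟨_, rfl⟩
  have hG1 : y ≤ G := by rw [hG]; exact Nat.le_ceil _
  have hG2 : (G : ℝ) ≤ y + 1 := by rw [hG]; exact (Nat.ceil_lt_add_one hy0.le).le
  have hGL : (G : ℝ) ≤ L ^ 2 := by linarith
  have main : ∀ H : ℕ, y ≤ H → ∀ M₀ : ℕ, M₀ + H ≤ N → ∀ r : ℕ,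
      ∑ h ∈ St q r H, ‖sgd b (M₀ + h)‖ ≤ kap θ * ∑ h ∈ St q r H, ttl b (M₀ + h) + ε * (H * N) := by
    intro H
    induction H using Nat.strong_induction_on with
    | _ H ih =>
      intro hH M₀ hM r
      by_cases hsH : (H : ℝ) ≤ L ^ 2
      · exact h1 N (by omega) H (by rw [← hL, ← hy]; exact hH) (by rw [← hL]; exact hsH) M₀ hM b hb r
      · push Not at hsH
        have hGHr : (G : ℝ) + y ≤ H := by linarith
        have hGH : G ≤ H := by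
          have : (G : ℝ) ≤ H := by linarith
          exact_mod_cast this
        have hG0 : 0 < G := by
          have : (0 : ℝ) < G := by linarith
          exact_mod_cast this
        have hHG : y ≤ ((H - G : ℕ) : ℝ) := by
          rw [Nat.cast_sub hGH]
          linarith
        have i1 := ih (H - G) (by omega) hHG (M₀ + G) (by omega) (r + G)
        have i2 := h1 N (by omega) G (by rw [← hL, ← hy]; exact hG1) (by rw [← hL]; exact hGL) M₀ (by omega) b hb r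
        rw [split_st q r (fun h => ‖sgd b (M₀ + h)‖) G H hGH, split_st q r (fun h => ttl b (M₀ + h)) G H hGH]
        have e3 : ((H - G : ℕ) : ℝ) = H - G := Nat.cast_sub hGH
        have e4 : ∀ i, M₀ + (G + i) = M₀ + G + i := fun i => by ring
        simp only [e4]
        have g4 : ε * ((G : ℝ) * N) + ε * (((H - G : ℕ) : ℝ) * N) = ε * (H * N) := by rw [e3]; ring
        linarith
  exact main H₁ hH₁ M₁ hM₁ r₁

lemma mod_iff {q : ℕ} (hq : 1 ≤ q) (M₀ h r : ℕ) : M₀ + h ≡ r [MOD q] ↔ q ∣ h + (M₀ + (q - 1) * r) := by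
  have e1 : h + (M₀ + (q - 1) * r) = (M₀ + h) + (q - 1) * r := by ring
  have e2 : r + (q - 1) * r = q * r := by
    obtain ⟨x, rfl⟩ := Nat.exists_eq_add_of_le hq
    rw [Nat.add_sub_cancel_left]
    ring
  have e3 : r + (q - 1) * r ≡ 0 [MOD q] := by
    rw [e2]
    exact (Nat.modEq_zero_iff_dvd).2 (dvd_mul_right q r)
  rw [e1]
  constructor
  · intro h1
    exact (Nat.modEq_zero_iff_dvd).1 ((Nat.ModEq.add_right _ h1).trans e3)
  · intro h1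
    exact Nat.ModEq.add_right_cancel' _ (((Nat.modEq_zero_iff_dvd).2 h1).trans e3.symm)

lemma sum_window {q : ℕ} (hq : 1 ≤ q) (M₀ H r : ℕ) (u : ℕ → ℝ) :
    ∑ M ∈ (Ioc M₀ (M₀ + H)).filter (fun M => M ≡ r [MOD q]), u M = ∑ h ∈ St q (M₀ + (q - 1) * r) H, u (M₀ + h) := by
  unfold St
  rw [sum_filter, sum_filter]
  have e1 : Ioc M₀ (M₀ + H) = (Icc 1 H).image (fun h => M₀ + h) := by
    ext n
    rw [mem_image, mem_Ioc]
    constructor
    · rintro ⟨h2, h3⟩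
      exact ⟨n - M₀, mem_Icc.2 ⟨by omega, by omega⟩, by omega⟩
    · rintro ⟨m, hm, rfl⟩
      rw [mem_Icc] at hm
      omega
  rw [e1, sum_image (fun x _ y _ h => by simpa using h)]
  apply sum_congr rfl
  intro h _
  by_cases h1 : M₀ + h ≡ r [MOD q]
  · rw [if_pos h1, if_pos ((mod_iff hq M₀ h r).1 h1)]
  · rw [if_neg h1, if_neg (fun q' => h1 ((mod_iff hq M₀ h r).2 q'))]

end Pool.Agent.H617.WQ
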